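import Pool.Agent.Lib_helper60.K4C.Units
import Pool.Agent.Lib_helper76.UE11.B
import Pool.Agent.Lib_helper60.K4M.Curve

set_option autoImplicit false

/-!
# The four units `x, x-1, y, x+y` are independent modulo constants
-/

open scoped TensorProduct nonZeroDivisors

namespace Pool.Agent.K4C

open Pool.Agent.UE11

section Int

variable {k F : Type*} [Field k] [Field F] [Algebra k F] {x y : F}

lemma pow_zero_iff' {K : Type*} [Field K] {n m : ℕ} {u v : K} (hu : u ≠ 0) (hv : v ≠ 0)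
    (h : (0 : K) ^ n * u = 0 ^ m * v) : n = 0 ↔ m = 0 := by
  constructor
  · intro hn
    subst hn
    by_contra hm
    rw [zero_pow hm, zero_mul, pow_zero, one_mul] at h
    exact hu h
  · intro hm
    subst hm
    by_contra hn
    rw [zero_pow hn, zero_mul, pow_zero, one_mul] at h
    exact hv h.symm

/-- a product of powers of the four units is constant only if the exponents vanish -/
theorem mon_const (hE : y ^ 2 + y = x ^ 3 - x ^ 2) (hx : Transcendental k x) {c : k} (hc : c ≠ 0)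
    {a b d e : ℤ} (h : x ^ a * (x - 1) ^ b * y ^ d * (x + y) ^ e = algebraMap k F c) :
    a = 0 ∧ b = 0 ∧ d = 0 ∧ e = 0 := by
  have hx0 := x_ne hx
  have hx1 := x1_ne hx
  have hy := y_ne hE hx
  have hxy := xy_ne hE hx
  have tr : ∀ p : Polynomial k, p.eval₂ (algebraMap k F) x = 0 → p = 0 := by
    intro p hp
    by_contra hne
    exact hx ⟨p, hne, hp⟩
  have split : ∀ (u : F) (_ : u ≠ 0) (n : ℤ), u ^ n * u ^ (-n).toNat = u ^ n.toNat := by
    intro u hu n
    rw [← zpow_natCast, ← zpow_natCast, ← zpow_add₀ hu]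
    congr 1
    omega
  have h1 : x ^ a.toNat * (x - 1) ^ b.toNat * y ^ d.toNat * (x + y) ^ e.toNat =
      algebraMap k F c * (x ^ (-a).toNat * (x - 1) ^ (-b).toNat * y ^ (-d).toNat *
        (x + y) ^ (-e).toNat) := by
    rw [← h, ← split x hx0, ← split (x - 1) hx1, ← split y hy, ← split (x + y) hxy]
    ring
  have h2 : (xR : R k) ^ a.toNat * (xR - 1) ^ b.toNat * yR ^ d.toNat * (xR + yR) ^ e.toNat =
      cR c * (xR ^ (-a).toNat * (xR - 1) ^ (-b).toNat * yR ^ (-d).toNat *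
        (xR + yR) ^ (-e).toNat) := by
    apply homR_injective (algebraMap k F) x y hE tr
    simp only [map_mul, map_pow, map_sub, map_add, map_one, homR_x, homR_y, homR_c]
    exact h1
  have ev : ∀ s t : k, t ^ 2 + t = s ^ 3 - s ^ 2 →
      s ^ a.toNat * (s - 1) ^ b.toNat * t ^ d.toNat * (s + t) ^ e.toNat =
      c * (s ^ (-a).toNat * (s - 1) ^ (-b).toNat * t ^ (-d).toNat * (s + t) ^ (-e).toNat) := by
    intro s t hst
    have := congrArg (homR (RingHom.id k) s t hst) h2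
    simp only [map_mul, map_pow, map_sub, map_add, map_one, homR_x, homR_y, homR_c] at this
    exact this
  have m1 : ∀ n : ℕ, (-1 : k) ^ n ≠ 0 := fun n => pow_ne_zero _ (neg_ne_zero.mpr one_ne_zero)
  have e1 := ev 0 (-1) (by norm_num)
  have e2 := ev 1 0 (by norm_num)
  have e3 := ev 1 (-1) (by norm_num)
  have e4 := ev 0 0 (by norm_num)
  have f1 : a.toNat = 0 ↔ (-a).toNat = 0 := by
    refine pow_zero_iff' (u := (-1 : k) ^ b.toNat * (-1) ^ d.toNat * (-1) ^ e.toNat)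
      (v := c * ((-1 : k) ^ (-b).toNat * (-1) ^ (-d).toNat * (-1) ^ (-e).toNat)) ?_ ?_ ?_
    · exact mul_ne_zero (mul_ne_zero (m1 _) (m1 _)) (m1 _)
    · exact mul_ne_zero hc (mul_ne_zero (mul_ne_zero (m1 _) (m1 _)) (m1 _))
    · rw [zero_sub, zero_add] at e1
      linear_combination e1
  have ha : a = 0 := by omega
  have f2 : b.toNat + d.toNat = 0 ↔ (-b).toNat + (-d).toNat = 0 := by
    refine pow_zero_iff' (u := (1 : k)) (v := c) one_ne_zero hc ?_
    rw [sub_self, add_zero, one_pow, one_pow, one_pow, one_pow] at e2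
    rw [pow_add, pow_add]
    linear_combination e2
  have f3 : b.toNat + e.toNat = 0 ↔ (-b).toNat + (-e).toNat = 0 := by
    refine pow_zero_iff' (u := (-1 : k) ^ d.toNat) (v := c * (-1 : k) ^ (-d).toNat) (m1 _)
      (mul_ne_zero hc (m1 _)) ?_
    rw [sub_self, add_neg_cancel, one_pow, one_pow] at e3
    rw [pow_add, pow_add]
    linear_combination e3
  have f4 : d.toNat + e.toNat = 0 ↔ (-d).toNat + (-e).toNat = 0 := by
    refine pow_zero_iff' (u := (-1 : k) ^ b.toNat) (v := c * (-1 : k) ^ (-b).toNat) (m1 _)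
      (mul_ne_zero hc (m1 _)) ?_
    rw [ha] at e4
    rw [zero_sub, zero_add] at e4
    simp only [Int.toNat_zero, neg_zero, pow_zero, one_mul] at e4
    rw [pow_add, pow_add]
    linear_combination e4
  omega

end Int

section Rat

variable {F : Type*} [Field F]

/-- the kernel of `F^* → F^* ⊗ ℚ` consists of the roots of unity -/
lemma pow_eq_one_of_lg {r : F} (hr : r ≠ 0) (h : K4M.lg r = 0) : ∃ n : ℕ, 0 < n ∧ r ^ n = 1 := by
  rw [K4M.lg_of_ne hr] at h
  have h1 : TensorProduct.mk ℤ ℚ (Additive Fˣ) 1 (Additive.ofMul (Units.mk0 r hr)) = 0 := h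
  rw [IsLocalizedModule.eq_zero_iff (nonZeroDivisors ℤ)] at h1
  obtain ⟨⟨m, hm⟩, h2⟩ := h1
  have hm0 : m ≠ 0 := nonZeroDivisors.ne_zero hm
  have h3 : (Units.mk0 r hr) ^ m = 1 := by
    have h4 : m • Additive.ofMul (Units.mk0 r hr) = 0 := h2
    rw [← ofMul_zpow] at h4
    exact h4
  have h5 : r ^ m = 1 := by
    have := congrArg (Units.val) h3
    rw [Units.val_zpow_eq_zpow_val] at this
    exact this
  refine ⟨m.natAbs, Int.natAbs_pos.mpr hm0, ?_⟩
  rcases Int.natAbs_eq m with h6 | h6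
  · rw [h6, zpow_natCast] at h5; exact h5
  · rw [h6, zpow_neg, zpow_natCast, inv_eq_one] at h5; exact h5

lemma lg_zpow {r : F} (hr : r ≠ 0) (n : ℤ) : K4M.lg (r ^ n) = (n : ℚ) • K4M.lg r := by
  obtain ⟨m, rfl | rfl⟩ := Int.eq_nat_or_neg n
  · rw [zpow_natCast, K4M.lg_pow hr]; push_cast; rfl
  · rw [zpow_neg, K4M.lg_inv, zpow_natCast, K4M.lg_pow hr]; push_cast; rw [neg_smul]

variable {k : Type*} [Field k] [Algebra k F]

/-- the elements of the span of the constants -/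
lemma span_const {w : K4M.FT F}
    (hw : w ∈ Submodule.span ℚ {z | ∃ c : k, z = K4M.lg (algebraMap k F c)}) :
    ∃ (N : ℕ) (c : k), 0 < N ∧ c ≠ 0 ∧ (N : ℚ) • w = K4M.lg (algebraMap k F c) := by
  have ne : ∀ {c : k}, c ≠ 0 → algebraMap k F c ≠ 0 := fun hc => (_root_.map_ne_zero _).mpr hc
  induction hw using Submodule.span_induction with
  | mem w hw =>
    obtain ⟨c, rfl⟩ := hw
    rcases eq_or_ne c 0 with rfl | hc
    · refine ⟨1, 1, one_pos, one_ne_zero, ?_⟩
      rw [map_zero, map_one, K4M.lg_zero, K4M.lg_one, smul_zero]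
    · exact ⟨1, c, one_pos, hc, by rw [Nat.cast_one, one_smul]⟩
  | zero => exact ⟨1, 1, one_pos, one_ne_zero, by rw [smul_zero, map_one, K4M.lg_one]⟩
  | add u v _ _ hu hv =>
    obtain ⟨N, c, hN, hc, h⟩ := hu
    obtain ⟨M, d, hM, hd, h'⟩ := hv
    refine ⟨N * M, c ^ M * d ^ N, Nat.mul_pos hN hM,
      mul_ne_zero (pow_ne_zero _ hc) (pow_ne_zero _ hd), ?_⟩
    rw [map_mul, map_pow, map_pow, K4M.lg_mul (pow_ne_zero _ (ne hc)) (pow_ne_zero _ (ne hd)),
      K4M.lg_pow (ne hc), K4M.lg_pow (ne hd), ← h, ← h']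
    push_cast
    module
  | smul q u _ hu =>
    obtain ⟨N, c, hN, hc, h⟩ := hu
    refine ⟨N * q.den, c ^ q.num, Nat.mul_pos hN q.den_pos, zpow_ne_zero _ hc, ?_⟩
    rw [map_zpow₀, lg_zpow (ne hc), ← h, smul_smul, smul_smul]
    congr 1
    have := Rat.mul_den_eq_num q
    push_cast
    rw [← this]
    ring

/-- **Independence** of the four units modulo constants. -/
theorem units_indep {x y : F} (hE : y ^ 2 + y = x ^ 3 - x ^ 2) (hx : Transcendental k x)
    (n : Fin 4 → ℚ)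
    (h : n 0 • K4M.lg x + n 1 • K4M.lg (x - 1) + n 2 • K4M.lg y + n 3 • K4M.lg (x + y) ∈
      Submodule.span ℚ {z | ∃ c : k, z = K4M.lg (algebraMap k F c)}) : n = 0 := by
  have hx0 := x_ne hx
  have hx1 := x1_ne hx
  have hy := y_ne hE hx
  have hxy := xy_ne hE hx
  have ne : ∀ {c : k}, c ≠ 0 → algebraMap k F c ≠ 0 := fun hc => (_root_.map_ne_zero _).mpr hc
  obtain ⟨N, c, hN, hc, h1⟩ := span_const h
  obtain ⟨D, hD, m, hm⟩ : ∃ D : ℕ, 0 < D ∧ ∃ m : Fin 4 → ℤ, ∀ i, (D : ℚ) * n i = m i := by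
    refine ⟨∏ i, (n i).den, Finset.prod_pos fun i _ => (n i).den_pos,
      fun i => (n i).num * ∏ j ∈ Finset.univ.erase i, ((n j).den : ℤ), fun i => ?_⟩
    have h1 : (∏ j, ((n j).den : ℚ)) =
        (n i).den * ∏ j ∈ Finset.univ.erase i, ((n j).den : ℚ) :=
      (Finset.mul_prod_erase _ _ (Finset.mem_univ i)).symm
    push_cast
    rw [h1]
    have := Rat.mul_den_eq_num (n i)
    rw [← this]
    ring
  have hz : ∀ {u : F} (_ : u ≠ 0) (i : ℤ), u ^ i ≠ 0 := fun hu i => zpow_ne_zero i hu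
  set g : F := x ^ (N * m 0) * (x - 1) ^ (N * m 1) * y ^ (N * m 2) * (x + y) ^ (N * m 3) with hg
  have hg0 : g ≠ 0 := mul_ne_zero (mul_ne_zero (mul_ne_zero (hz hx0 _) (hz hx1 _)) (hz hy _))
    (hz hxy _)
  have h2 : K4M.lg g = K4M.lg (algebraMap k F (c ^ D)) := by
    rw [hg, K4M.lg_mul (mul_ne_zero (mul_ne_zero (hz hx0 _) (hz hx1 _)) (hz hy _)) (hz hxy _),
      K4M.lg_mul (mul_ne_zero (hz hx0 _) (hz hx1 _)) (hz hy _), K4M.lg_mul (hz hx0 _) (hz hx1 _),
      lg_zpow hx0, lg_zpow hx1, lg_zpow hy, lg_zpow hxy, map_pow, K4M.lg_pow (ne hc), ← h1]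
    push_cast
    rw [← hm, ← hm, ← hm, ← hm]
    module
  have h3 : K4M.lg (g / algebraMap k F (c ^ D)) = 0 := by
    rw [K4M.lg_div hg0 (ne (pow_ne_zero _ hc)), h2, sub_self]
  obtain ⟨M, hM, h4⟩ := pow_eq_one_of_lg (div_ne_zero hg0 (ne (pow_ne_zero _ hc))) h3
  rw [div_pow, div_eq_one_iff_eq (pow_ne_zero _ (ne (pow_ne_zero _ hc))), ← map_pow] at h4
  have h5 : x ^ (N * m 0 * M) * (x - 1) ^ (N * m 1 * M) * y ^ (N * m 2 * M) *
      (x + y) ^ (N * m 3 * M) = algebraMap k F ((c ^ D) ^ M) := by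
    rw [← h4, hg]
    simp only [mul_pow, zpow_mul, zpow_natCast]
  obtain ⟨h6, h7, h8, h9⟩ := mon_const hE hx (pow_ne_zero _ (pow_ne_zero _ hc)) h5
  have fin : ∀ i : Fin 4, N * m i * M = 0 → n i = 0 := by
    intro i hi
    have hmi : m i = 0 := by
      rcases mul_eq_zero.mp hi with h | h
      · rcases mul_eq_zero.mp h with h | h
        · exact absurd h (by exact_mod_cast hN.ne')
        · exact h
      · exact absurd h (by exact_mod_cast hM.ne')
    have := hm i
    rw [hmi, Int.cast_zero] at this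
    rcases mul_eq_zero.mp this with h | h
    · exact absurd h (by exact_mod_cast hD.ne')
    · exact h
  funext i
  fin_cases i
  · exact fin 0 h6
  · exact fin 1 h7
  · exact fin 2 h8
  · exact fin 3 h9

end Rat

end Pool.Agent.K4C
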