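import Pool.Agent.Lib_helper60.K4C.Cross
import Pool.Agent.Lib_helper60.K4C.Indep

set_option autoImplicit false

/-!
# The cross ratios are not constant
-/

namespace Pool.Agent.K4C

variable {F : Type*} [Field F] {x y : F}

/-- the monomial with exponents `e` -/
noncomputable def mz (x y : F) (e : Fin 4 → ℤ) : F :=
  x ^ e 0 * (x - 1) ^ e 1 * y ^ e 2 * (x + y) ^ e 3

/-- the exponents of the differences `x_a - x_b`, `a < b` -/
def ex0 : Fin 6 → Fin 6 → Fin 4 → ℤ :=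
  ![![![0,0,0,0], ![0,0,0,0], ![0,0,0,0], ![0,0,0,0], ![0,0,0,0], ![0,0,0,0]],
    ![![0,0,0,0], ![0,0,0,0], ![1,1,0,1], ![-1,0,1,1], ![2,1,0,0], ![0,1,0,1]],
    ![![0,0,0,0], ![0,0,0,0], ![0,0,0,0], ![-1,0,2,1], ![1,1,1,0], ![0,2,0,1]],
    ![![0,0,0,0], ![0,0,0,0], ![0,0,0,0], ![0,0,0,0], ![-1,1,2,0], ![-1,2,1,0]],
    ![![0,0,0,0], ![0,0,0,0], ![0,0,0,0], ![0,0,0,0], ![0,0,0,0], ![0,3,1,-1]],
    ![![0,0,0,0], ![0,0,0,0], ![0,0,0,0], ![0,0,0,0], ![0,0,0,0], ![0,0,0,0]]]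

/-- the exponents of the differences `x_a - x_b` -/
def ex (a b : Fin 6) : Fin 4 → ℤ := if a < b then ex0 a b else ex0 b a

lemma mz_ne (hx : x ≠ 0) (hx1 : x - 1 ≠ 0) (hy : y ≠ 0) (hxy : x + y ≠ 0) (e : Fin 4 → ℤ) :
    mz x y e ≠ 0 :=
  mul_ne_zero (mul_ne_zero (mul_ne_zero (zpow_ne_zero _ hx) (zpow_ne_zero _ hx1))
    (zpow_ne_zero _ hy)) (zpow_ne_zero _ hxy)

lemma mz_add (hx : x ≠ 0) (hx1 : x - 1 ≠ 0) (hy : y ≠ 0) (hxy : x + y ≠ 0) (e e' : Fin 4 → ℤ) :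
    mz x y (e + e') = mz x y e * mz x y e' := by
  unfold mz
  simp only [Pi.add_apply]
  rw [zpow_add₀ hx, zpow_add₀ hx1, zpow_add₀ hy, zpow_add₀ hxy]
  ring

lemma mz_sub (hx : x ≠ 0) (hx1 : x - 1 ≠ 0) (hy : y ≠ 0) (hxy : x + y ≠ 0) (e e' : Fin 4 → ℤ) :
    mz x y (e - e') = mz x y e / mz x y e' := by
  unfold mz
  simp only [Pi.sub_apply]
  rw [zpow_sub₀ hx, zpow_sub₀ hx1, zpow_sub₀ hy, zpow_sub₀ hxy]
  field_simp

lemma zp (u : F) : u ^ (2 : ℤ) = u ^ 2 ∧ u ^ (3 : ℤ) = u ^ 3 :=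
  ⟨by exact_mod_cast zpow_natCast u 2, by exact_mod_cast zpow_natCast u 3⟩

/-- the differences are `±` monomials -/
lemma dv_ex (hE : y ^ 2 + y = x ^ 3 - x ^ 2) (hx : x ≠ 0) (hxy : x + y ≠ 0) {a b : Fin 6}
    (h : a ≠ b) : ∃ s : F, (s = 1 ∨ s = -1) ∧ dv x y a b = s * mz x y (ex a b) := by
  have key : ∀ a b : Fin 6, a < b → ∃ s : F, (s = 1 ∨ s = -1) ∧ dv x y a b = s * mz x y (ex0 a b) := by
    intro a b hab
    fin_cases a <;> fin_cases b <;> first | (exfalso; revert hab; decide) | skip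
    all_goals first
      | (refine ⟨1, Or.inl rfl, ?_⟩; show dv x y 0 _ = _; rw [dv0 (by decide)]; simp [mz, ex0])
      | (refine ⟨-1, Or.inr rfl, ?_⟩; show dv x y 1 2 = _; rw [dv12]; simp [mz, ex0])
      | (refine ⟨-1, Or.inr rfl, ?_⟩; show dv x y 1 3 = _; rw [dv13]; simp [mz, ex0]; ring)
      | (refine ⟨-1, Or.inr rfl, ?_⟩; show dv x y 1 4 = _; rw [dv14]; simp [mz, ex0, (zp x).1])
      | (refine ⟨-1, Or.inr rfl, ?_⟩; show dv x y 1 5 = _; rw [dv15]; simp [mz, ex0])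
      | (refine ⟨1, Or.inl rfl, ?_⟩; show dv x y 2 3 = _; rw [dv23 hE hx]
         simp [mz, ex0, (zp y).1]; ring)
      | (refine ⟨1, Or.inl rfl, ?_⟩; show dv x y 2 4 = _; rw [dv24]; simp [mz, ex0])
      | (refine ⟨1, Or.inl rfl, ?_⟩; show dv x y 2 5 = _; rw [dv25]
         simp [mz, ex0, (zp (x - 1)).1])
      | (refine ⟨-1, Or.inr rfl, ?_⟩; show dv x y 3 4 = _; rw [dv34 hE hx]
         simp [mz, ex0, (zp y).1]; ring)
      | (refine ⟨-1, Or.inr rfl, ?_⟩; show dv x y 3 5 = _; rw [dv35 hE hx]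
         simp [mz, ex0, (zp (x - 1)).1]; ring)
      | (refine ⟨1, Or.inl rfl, ?_⟩; show dv x y 4 5 = _; rw [dv45 hE hxy]
         simp [mz, ex0, (zp (x - 1)).2]; ring)
  rcases lt_or_gt_of_ne h with h | h
  · unfold ex; rw [if_pos h]; exact key a b h
  · unfold ex
    rw [if_neg (not_lt.mpr h.le)]
    obtain ⟨s, hs, e⟩ := key b a h
    refine ⟨-s, ?_, by rw [dv_swap, e]; ring⟩
    rcases hs with rfl | rfl
    · right; rfl
    · left; ring

lemma ex_ne : ∀ a b c d : Fin 6, a ≠ b → a ≠ c → a ≠ d → b ≠ c → b ≠ d → c ≠ d →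
    ¬ (ex a b 0 + ex c d 0 - (ex a c 0 + ex b d 0) = 0 ∧
      ex a b 1 + ex c d 1 - (ex a c 1 + ex b d 1) = 0 ∧
      ex a b 2 + ex c d 2 - (ex a c 2 + ex b d 2) = 0 ∧
      ex a b 3 + ex c d 3 - (ex a c 3 + ex b d 3) = 0) := by
  decide +kernel

/-- a cross ratio is not constant -/
theorem isCR_nonconst {k : Type*} [Field k] [Algebra k F] (hE : y ^ 2 + y = x ^ 3 - x ^ 2)
    (hx : Transcendental k x) {f : F} (hf : IsCR x y f) (c : k) : f ≠ algebraMap k F c := by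
  have hx0 := x_ne hx
  have hx1 := x1_ne hx
  have hy := y_ne hE hx
  have hxy := xy_ne hE hx
  intro h
  have hf0 := cr_ne_zero hE hx0 hx1 hy hxy hf
  have hc : c ≠ 0 := by
    rintro rfl
    rw [map_zero] at h
    exact hf0 h
  obtain ⟨a, b, c', d, h1, h2, h3, h4, h5, h6, rfl⟩ := hf
  obtain ⟨s1, hs1, e1⟩ := dv_ex hE hx0 hxy h1
  obtain ⟨s2, hs2, e2⟩ := dv_ex hE hx0 hxy h6
  obtain ⟨s3, hs3, e3⟩ := dv_ex hE hx0 hxy h2
  obtain ⟨s4, hs4, e4⟩ := dv_ex hE hx0 hxy h5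
  have hm : ∃ t : k, (t = 1 ∨ t = -1) ∧ mz x y (ex a b + ex c' d - (ex a c' + ex b d)) =
      algebraMap k F (t * c) := by
    have h7 : s1 * s2 * mz x y (ex a b + ex c' d - (ex a c' + ex b d)) =
        s3 * s4 * algebraMap k F c := by
      rw [← h, mz_sub hx0 hx1 hy hxy, mz_add hx0 hx1 hy hxy, mz_add hx0 hx1 hy hxy]
      unfold CR
      rw [e1, e2, e3, e4]
      have m1 := mz_ne hx0 hx1 hy hxy (ex a c')
      have m2 := mz_ne hx0 hx1 hy hxy (ex b d)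
      have n3 : s3 ≠ 0 := by rcases hs3 with rfl | rfl <;> simp
      have n4 : s4 ≠ 0 := by rcases hs4 with rfl | rfl <;> simp
      field_simp
    rcases hs1 with rfl | rfl <;> rcases hs2 with rfl | rfl <;> rcases hs3 with rfl | rfl <;>
      rcases hs4 with rfl | rfl <;> first
      | (refine ⟨1, Or.inl rfl, ?_⟩; rw [one_mul]; linear_combination h7)
      | (refine ⟨1, Or.inl rfl, ?_⟩; rw [one_mul]; linear_combination -h7)
      | (refine ⟨-1, Or.inr rfl, ?_⟩; rw [map_mul, map_neg, map_one]; linear_combination h7)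
      | (refine ⟨-1, Or.inr rfl, ?_⟩; rw [map_mul, map_neg, map_one]; linear_combination -h7)
  obtain ⟨t, ht, h8⟩ := hm
  have htc : t * c ≠ 0 := by
    rcases ht with rfl | rfl
    · rwa [one_mul]
    · rw [neg_one_mul]; exact neg_ne_zero.mpr hc
  exact ex_ne a b c' d h1 h2 h3 h4 h5 h6 (mon_const hE hx htc h8)

end Pool.Agent.K4C
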