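import Pool.Agent.Lib_helper60.K4C.Cross
import Pool.Agent.Lib_helper2.K4.DefsL

set_option autoImplicit false

/-!
# The universal elliptic curve over `X₁(11) : y² + y = x³ - x²`
-/

namespace Pool.Agent.K4C

open Pool.Agent.MK4 WeierstrassCurve.Affine

variable {F : Type*} [Field F]

/-- The universal elliptic curve `Y² + (1-c)XY - bY = X³ - bX²` with `b = x(x-1)(x+y)` and
`c = y(x+y)/x`; its point `(0,0)` has order eleven. -/
def TW (x y : F) : WeierstrassCurve.Affine F where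
  a₁ := 1 - y * (x + y) / x
  a₂ := -(x * (x - 1) * (x + y))
  a₃ := -(x * (x - 1) * (x + y))
  a₄ := 0
  a₆ := 0

variable {x y : F}

lemma some_congr {W : WeierstrassCurve.Affine F} {u v u' v' : F} (h : W.Nonsingular u v)
    (h' : u = u' ∧ v = v') : ∃ h2 : W.Nonsingular u' v', Point.some u v h = Point.some u' v' h2 := by
  obtain ⟨rfl, rfl⟩ := h'
  exact ⟨h, rfl⟩

variable (hE : y ^ 2 + y = x ^ 3 - x ^ 2) (hx : x ≠ 0) (hx1 : x - 1 ≠ 0) (hy : y ≠ 0)
  (hxy : x + y ≠ 0)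

include hx hx1 hxy in
lemma ns1 : (TW x y).Nonsingular 0 0 := by
  rw [nonsingular_iff, equation_iff]
  refine ⟨by simp [TW], Or.inr ?_⟩
  simp only [TW]
  intro h
  apply mul_ne_zero (mul_ne_zero hx hx1) hxy
  linear_combination -h

/-- the `y`-coordinates of `kP` -/
def yv (x y : F) : Fin 6 → F :=
  ![0, 0, (x - 1) * y * (x + y) ^ 2, y ^ 2 * (x + y) / x, x ^ 3 * (x - 1) ^ 2,
    (x - 1) ^ 2 * (x + y) ^ 2 / x]

/-- `P + Q` for `P = (0,0)` and `Q = (u, u l)` -/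
lemma addP [DecidableEq F] {W : WeierstrassCurve.Affine F} (h0 : W.Nonsingular 0 0)
    {u v u' v' : F} (l : F) (hu : u ≠ 0) (h : W.Nonsingular u v) (hv : v = u * l)
    (hu' : u' = l ^ 2 + W.a₁ * l - W.a₂ - u)
    (hv' : v' = - (l * u') - W.a₁ * u' - W.a₃) :
    ∃ h' : W.Nonsingular u' v', Point.some 0 0 h0 + Point.some u v h = Point.some u' v' h' := by
  subst hv
  have hX : (0 : F) ≠ u := hu.symm
  have hs : W.slope 0 u 0 (u * l) = l := by
    rw [slope_of_X_ne hX]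
    field_simp
    ring
  rw [Point.add_of_X_ne hX]
  apply some_congr
  rw [hs]
  constructor
  · rw [hu', addX]; ring
  · rw [hv', addY, negAddY, negY, addX, hu']; ring

include hx hx1 hxy in
lemma P_add_P [DecidableEq F] : ∃ h : (TW x y).Nonsingular (xv x y 2) (yv x y 2),
    Point.some 0 0 (ns1 hx hx1 hxy) + Point.some 0 0 (ns1 hx hx1 hxy) =
      Point.some (xv x y 2) (yv x y 2) h := by
  have hY : (0 : F) ≠ (TW x y).negY 0 0 := by
    intro h
    apply mul_ne_zero (mul_ne_zero hx hx1) hxy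
    simp only [negY, TW] at h
    linear_combination -h
  have hs : (TW x y).slope 0 0 0 0 = 0 := by
    rw [slope_of_Y_ne rfl hY]
    simp [TW]
  rw [Point.add_self_of_Y_ne hY]
  apply some_congr
  rw [hs]
  constructor
  · simp [addX, TW, xv]
  · simp [addY, negAddY, negY, addX, TW, yv]
    field_simp
    ring

include hE hx hx1 hy hxy in
lemma P_add_2 [DecidableEq F] (h : (TW x y).Nonsingular (xv x y 2) (yv x y 2)) :
    ∃ h' : (TW x y).Nonsingular (xv x y 3) (yv x y 3),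
    Point.some 0 0 (ns1 hx hx1 hxy) + Point.some _ _ h = Point.some _ _ h' := by
  refine addP _ (y * (x + y) / x) ?_ h ?_ ?_ ?_
  · exact mul_ne_zero (mul_ne_zero hx hx1) hxy
  · show (x - 1) * y * (x + y) ^ 2 = x * (x - 1) * (x + y) * (y * (x + y) / x)
    field_simp
  · show y * (x + y) / x = _
    simp only [TW, xv, Matrix.cons_val]
    field_simp
    ring
  · show y ^ 2 * (x + y) / x = - (y * (x + y) / x * (y * (x + y) / x)) - _ * (y * (x + y) / x) - _
    simp only [TW]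
    field_simp
    linear_combination x * hE

include hE hx hx1 hy hxy in
lemma P_add_3 [DecidableEq F] (h : (TW x y).Nonsingular (xv x y 3) (yv x y 3)) :
    ∃ h' : (TW x y).Nonsingular (xv x y 4) (yv x y 4),
    Point.some 0 0 (ns1 hx hx1 hxy) + Point.some _ _ h = Point.some _ _ h' := by
  refine addP _ y ?_ h ?_ ?_ ?_
  · exact div_ne_zero (mul_ne_zero hy hxy) hx
  · show y ^ 2 * (x + y) / x = y * (x + y) / x * y
    ring
  · show x ^ 2 * (x - 1) = _
    simp only [TW, xv, Matrix.cons_val]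
    field_simp
    linear_combination y * hE
  · show x ^ 3 * (x - 1) ^ 2 = - (y * (x ^ 2 * (x - 1))) - _ * (x ^ 2 * (x - 1)) - _
    simp only [TW]
    field_simp
    linear_combination -hE

include hE hx hx1 hxy in
lemma P_add_4 [DecidableEq F] (h : (TW x y).Nonsingular (xv x y 4) (yv x y 4)) :
    ∃ h' : (TW x y).Nonsingular (xv x y 5) (yv x y 5),
    Point.some 0 0 (ns1 hx hx1 hxy) + Point.some _ _ h = Point.some _ _ h' := by
  refine addP _ (x * (x - 1)) ?_ h ?_ ?_ ?_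
  · exact mul_ne_zero (pow_ne_zero 2 hx) hx1
  · show x ^ 3 * (x - 1) ^ 2 = x ^ 2 * (x - 1) * (x * (x - 1))
    ring
  · show (x - 1) * (x + y) = _
    simp only [TW, xv, Matrix.cons_val]
    field_simp
    linear_combination hE
  · show (x - 1) ^ 2 * (x + y) ^ 2 / x =
      - (x * (x - 1) * ((x - 1) * (x + y))) - _ * ((x - 1) * (x + y)) - _
    simp only [TW]
    field_simp
    linear_combination -hE

include hE hx hx1 hxy in
lemma P_add_5 [DecidableEq F] (h : (TW x y).Nonsingular (xv x y 5) (yv x y 5)) :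
    ∃ h' : (TW x y).Nonsingular (xv x y 5) ((TW x y).negY (xv x y 5) (yv x y 5)),
    Point.some 0 0 (ns1 hx hx1 hxy) + Point.some _ _ h = Point.some _ _ h' := by
  refine addP _ ((x - 1) * (x + y) / x) ?_ h ?_ ?_ ?_
  · exact mul_ne_zero hx1 hxy
  · show (x - 1) ^ 2 * (x + y) ^ 2 / x = (x - 1) * (x + y) * ((x - 1) * (x + y) / x)
    ring
  · show (x - 1) * (x + y) = _
    simp only [TW, xv, Matrix.cons_val]
    field_simp
    linear_combination hE
  · simp only [negY, yv, xv, Matrix.cons_val]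
    ring

variable (x y)

/-- The point `P = (0,0)`. -/
def PP (hx : x ≠ 0) (hx1 : x - 1 ≠ 0) (hxy : x + y ≠ 0) : (TW x y).Point :=
  Point.some 0 0 (ns1 hx hx1 hxy)

variable {x y}

include hE hx hx1 hy hxy in
/-- the multiples of `P` -/
lemma mulP [DecidableEq F] :
    (∃ h, 2 • PP x y hx hx1 hxy = Point.some (xv x y 2) (yv x y 2) h) ∧
    (∃ h, 3 • PP x y hx hx1 hxy = Point.some (xv x y 3) (yv x y 3) h) ∧
    (∃ h, 4 • PP x y hx hx1 hxy = Point.some (xv x y 4) (yv x y 4) h) ∧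
    (∃ h, 5 • PP x y hx hx1 hxy = Point.some (xv x y 5) (yv x y 5) h) ∧
    11 • PP x y hx hx1 hxy = 0 := by
  obtain ⟨h2, e2⟩ := P_add_P hx hx1 hxy
  obtain ⟨h3, e3⟩ := P_add_2 hE hx hx1 hy hxy h2
  obtain ⟨h4, e4⟩ := P_add_3 hE hx hx1 hy hxy h3
  obtain ⟨h5, e5⟩ := P_add_4 hE hx hx1 hxy h4
  obtain ⟨h6, e6⟩ := P_add_5 hE hx hx1 hxy h5
  change PP x y hx hx1 hxy + PP x y hx hx1 hxy = _ at e2
  change PP x y hx hx1 hxy + _ = _ at e3
  change PP x y hx hx1 hxy + _ = _ at e4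
  change PP x y hx hx1 hxy + _ = _ at e5
  change PP x y hx hx1 hxy + _ = _ at e6
  have f2 : 2 • PP x y hx hx1 hxy = Point.some (xv x y 2) (yv x y 2) h2 := by
    rw [two_nsmul]; exact e2
  have f3 : 3 • PP x y hx hx1 hxy = Point.some (xv x y 3) (yv x y 3) h3 := by
    rw [succ_nsmul', f2]; exact e3
  have f4 : 4 • PP x y hx hx1 hxy = Point.some (xv x y 4) (yv x y 4) h4 := by
    rw [succ_nsmul', f3]; exact e4
  have f5 : 5 • PP x y hx hx1 hxy = Point.some (xv x y 5) (yv x y 5) h5 := by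
    rw [succ_nsmul', f4]; exact e5
  have f6 : (6 : ℕ) • PP x y hx hx1 hxy = - ((5 : ℕ) • PP x y hx hx1 hxy) := by
    rw [succ_nsmul', f5, e6, Point.neg_some]
  refine ⟨⟨h2, f2⟩, ⟨h3, f3⟩, ⟨h4, f4⟩, ⟨h5, f5⟩, ?_⟩
  have : (11 : ℕ) • PP x y hx hx1 hxy =
      (6 : ℕ) • PP x y hx hx1 hxy + (5 : ℕ) • PP x y hx hx1 hxy := by
    rw [← add_nsmul]
  rw [this, f6, neg_add_cancel]

lemma PP_ne : PP x y hx hx1 hxy ≠ 0 := by
  intro h
  cases h

include hE hx hx1 hy hxy in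
lemma addOrderOf_PP [DecidableEq F] : addOrderOf (PP x y hx hx1 hxy) = 11 := by
  obtain ⟨-, -, -, -, h⟩ := mulP hE hx hx1 hy hxy
  have : Fact (Nat.Prime 11) := ⟨by norm_num⟩
  exact addOrderOf_eq_prime h (PP_ne hx hx1 hxy)

variable (x y)

/-- The group generated by `P`. -/
def AA [DecidableEq F] (hx : x ≠ 0) (hx1 : x - 1 ≠ 0) (hxy : x + y ≠ 0) :
    AddSubgroup (TW x y).Point :=
  AddSubgroup.zmultiples (PP x y hx hx1 hxy)

variable {x y}

include hE hx hx1 hy hxy in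
lemma card_AA [DecidableEq F] : Nat.card (AA x y hx hx1 hxy) = 11 := by
  unfold AA
  rw [Nat.card_zmultiples]
  exact addOrderOf_PP hE hx hx1 hy hxy

include hE hx hx1 hy hxy in
/-- the differences of the coordinates of the multiples of `P` -/
lemma dx_eq_dv [DecidableEq F] (a b : Fin 6) :
    dx ((a : ℕ) • PP x y hx hx1 hxy) ((b : ℕ) • PP x y hx hx1 hxy) = dv x y a b := by
  obtain ⟨⟨h2, f2⟩, ⟨h3, f3⟩, ⟨h4, f4⟩, ⟨h5, f5⟩, -⟩ := mulP hE hx hx1 hy hxy
  have f0 : (0 : ℕ) • PP x y hx hx1 hxy = Point.zero := zero_nsmul _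
  have f1 : (1 : ℕ) • PP x y hx hx1 hxy = Point.some 0 0 (ns1 hx hx1 hxy) := one_nsmul _
  have key : ∀ a : Fin 6, a ≠ 0 → ∃ v h, (a : ℕ) • PP x y hx hx1 hxy =
      Point.some (xv x y a) v h := by
    intro a ha
    fin_cases a
    · exact absurd rfl ha
    · exact ⟨0, ns1 hx hx1 hxy, f1⟩
    · exact ⟨_, h2, f2⟩
    · exact ⟨_, h3, f3⟩
    · exact ⟨_, h4, f4⟩
    · exact ⟨_, h5, f5⟩
  unfold dv
  by_cases ha : a = 0
  · subst ha
    rw [if_pos rfl]
    by_cases hb : b = 0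
    · subst hb
      rw [if_pos rfl]
      show dx ((0 : ℕ) • _) ((0 : ℕ) • _) = _
      rw [f0]; rfl
    · rw [if_neg hb]
      obtain ⟨v, h, e⟩ := key b hb
      show dx ((0 : ℕ) • _) _ = _
      rw [f0, e]; rfl
  · rw [if_neg ha]
    obtain ⟨v, h, e⟩ := key a ha
    by_cases hb : b = 0
    · subst hb
      rw [if_pos rfl]
      show dx _ ((0 : ℕ) • _) = _
      rw [f0, e]; rfl
    · rw [if_neg hb]
      obtain ⟨v', h', e'⟩ := key b hb
      rw [e, e']; rfl

/-- the values of `ψ₂` at the points `kP` -/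
def pv (x y : F) : Fin 6 → F :=
  ![1, -(x * (x - 1) * (x + y)), (x - 1) * y * (x + y) ^ 2, -(y ^ 3 * (x + y) / x ^ 2),
    x ^ 2 * (x - 1) ^ 3 * y / (x + y), -((x - 1) ^ 4 * y / x)]

include hE hx hx1 hy hxy in
/-- the values of `ψ₂` at the multiples of `P` -/
lemma ps_eq_pv [DecidableEq F] (a : Fin 6) :
    ps ((a : ℕ) • PP x y hx hx1 hxy) = pv x y a := by
  obtain ⟨⟨h2, f2⟩, ⟨h3, f3⟩, ⟨h4, f4⟩, ⟨h5, f5⟩, -⟩ := mulP hE hx hx1 hy hxy
  have f0 : (0 : ℕ) • PP x y hx hx1 hxy = Point.zero := zero_nsmul _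
  have f1 : (1 : ℕ) • PP x y hx hx1 hxy = Point.some 0 0 (ns1 hx hx1 hxy) := one_nsmul _
  fin_cases a
  · show ps ((0 : ℕ) • _) = 1
    rw [f0]; rfl
  · show ps ((1 : ℕ) • _) = -(x * (x - 1) * (x + y))
    rw [f1]
    simp [ps, TW]
  · show ps ((2 : ℕ) • _) = (x - 1) * y * (x + y) ^ 2
    rw [f2]
    show 2 * ((x - 1) * y * (x + y) ^ 2) + (1 - y * (x + y) / x) * (x * (x - 1) * (x + y)) +
      -(x * (x - 1) * (x + y)) = _
    field_simp
    ring
  · show ps ((3 : ℕ) • _) = -(y ^ 3 * (x + y) / x ^ 2)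
    rw [f3]
    show 2 * (y ^ 2 * (x + y) / x) + (1 - y * (x + y) / x) * (y * (x + y) / x) +
      -(x * (x - 1) * (x + y)) = _
    field_simp
    linear_combination x * hE
  · show ps ((4 : ℕ) • _) = x ^ 2 * (x - 1) ^ 3 * y / (x + y)
    rw [f4]
    show 2 * (x ^ 3 * (x - 1) ^ 2) + (1 - y * (x + y) / x) * (x ^ 2 * (x - 1)) +
      -(x * (x - 1) * (x + y)) = _
    field_simp
    linear_combination -(2 * x + y) * hE
  · show ps ((5 : ℕ) • _) = -((x - 1) ^ 4 * y / x)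
    rw [f5]
    show 2 * ((x - 1) ^ 2 * (x + y) ^ 2 / x) + (1 - y * (x + y) / x) * ((x - 1) * (x + y)) +
      -(x * (x - 1) * (x + y)) = _
    field_simp
    linear_combination -(1 + y) * hE

variable (x y)

/-- The point `P` of the group generated by `P`. -/
def PA [DecidableEq F] (hx : x ≠ 0) (hx1 : x - 1 ≠ 0) (hxy : x + y ≠ 0) : AA x y hx hx1 hxy :=
  ⟨PP x y hx hx1 hxy, AddSubgroup.mem_zmultiples _⟩

variable {x y}

include hE hx hx1 hy hxy in
lemma finite_AA [DecidableEq F] : Finite (AA x y hx hx1 hxy) :=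
  Nat.finite_of_card_ne_zero (by rw [card_AA hE hx hx1 hy hxy]; norm_num)

include hE hx hx1 hy hxy in
lemma PA_eleven [DecidableEq F] : 11 • PA x y hx hx1 hxy = 0 := by
  apply Subtype.ext
  exact (mulP hE hx hx1 hy hxy).2.2.2.2

include hE hx hx1 hy hxy in
/-- the cross ratios of the `x(kP)` -/
lemma cr_eq_CR [DecidableEq F] (a b c d : Fin 6) :
    cr ((a : ℕ) • PA x y hx hx1 hxy) ((b : ℕ) • PA x y hx hx1 hxy)
      ((c : ℕ) • PA x y hx hx1 hxy) ((d : ℕ) • PA x y hx hx1 hxy) = sy (CR x y a b c d) := by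
  have co : ∀ n : ℕ, ((n • PA x y hx hx1 hxy : AA x y hx hx1 hxy) : (TW x y).Point) =
      n • PP x y hx hx1 hxy := fun n => rfl
  unfold cr CR
  rw [co, co, co, co, dx_eq_dv hE hx hx1 hy hxy, dx_eq_dv hE hx hx1 hy hxy,
    dx_eq_dv hE hx hx1 hy hxy, dx_eq_dv hE hx hx1 hy hxy]

end Pool.Agent.K4C
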