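import Pool.Agent.Lib_helper60.K4C.Units

set_option autoImplicit false

/-!
# The ten classes of solutions of the unit equation are cross ratios of the points `x(kP)`

`y² + y = x³ - x²` is the modular curve `X₁(11)`, `P` the point of order eleven of the universal
curve, `x(P), …, x(5P) = 0, x(x-1)(x+y), y(x+y)/x, x²(x-1), (x-1)(x+y)` and `x(O) = ∞`.
-/

namespace Pool.Agent.K4C

variable {F : Type*} [Field F]

/-- the coordinates `x(kP)`, `1 ≤ k ≤ 5` -/
def xv (x y : F) : Fin 6 → F :=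
  ![0, 0, x * (x - 1) * (x + y), y * (x + y) / x, x ^ 2 * (x - 1), (x - 1) * (x + y)]

/-- the differences of the six points of the projective line -/
def dv (x y : F) (a b : Fin 6) : F :=
  if a = 0 then (if b = 0 then 0 else 1) else if b = 0 then -1 else xv x y a - xv x y b

/-- the cross ratios of the six points -/
def CR (x y : F) (a b c d : Fin 6) : F := dv x y a b * dv x y c d / (dv x y a c * dv x y b d)

/-- `τ^s x`, where `τ` is the translation by `(0,0)` -/
def tx (x y : F) : Fin 5 → F :=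
  ![x, -y / x ^ 2, x * (x + y) / ((x - 1) * y), y / (x + y), (x - 1) / y]

/-- `-τ^s y` -/
def ty (x y : F) : Fin 5 → F :=
  ![-y, y * (x + y) / (x ^ 3 * (x - 1)), x ^ 2 * (x + y) / ((x - 1) ^ 2 * y),
    (x - 1) * y / (x + y) ^ 2, x * (x - 1) ^ 2 / y ^ 2]

variable {x y : F}

lemma dv_self (a : Fin 6) : dv x y a a = 0 := by
  unfold dv
  split_ifs <;> simp

lemma dv_swap (a b : Fin 6) : dv x y b a = - dv x y a b := by
  unfold dv
  split_ifs <;> ring

/-- Plücker -/
lemma dv_pl (a b c d : Fin 6) :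
    dv x y a b * dv x y c d - dv x y a c * dv x y b d + dv x y a d * dv x y b c = 0 := by
  unfold dv
  split_ifs <;> ring

variable (hE : y ^ 2 + y = x ^ 3 - x ^ 2) (hx : x ≠ 0) (hx1 : x - 1 ≠ 0) (hy : y ≠ 0)
  (hxy : x + y ≠ 0)

lemma dv0 {b : Fin 6} (hb : b ≠ 0) : dv x y 0 b = 1 := by
  unfold dv; rw [if_pos rfl, if_neg hb]

lemma dv12 : dv x y 1 2 = - (x * (x - 1) * (x + y)) := by
  simp [dv, xv]

lemma dv13 : dv x y 1 3 = - (y * (x + y) / x) := by
  simp [dv, xv]

lemma dv14 : dv x y 1 4 = - (x ^ 2 * (x - 1)) := by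
  simp [dv, xv]

lemma dv15 : dv x y 1 5 = - ((x - 1) * (x + y)) := by
  simp [dv, xv]

include hE hx in
lemma dv23 : dv x y 2 3 = y ^ 2 * (x + y) / x := by
  have : dv x y 2 3 = x * (x - 1) * (x + y) - y * (x + y) / x := by
    simp [dv, xv]
  rw [this]
  field_simp
  linear_combination -(x + y) * hE

lemma dv24 : dv x y 2 4 = x * (x - 1) * y := by
  have : dv x y 2 4 = x * (x - 1) * (x + y) - x ^ 2 * (x - 1) := by
    simp [dv, xv]
  rw [this]
  ring

lemma dv25 : dv x y 2 5 = (x - 1) ^ 2 * (x + y) := by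
  have : dv x y 2 5 = x * (x - 1) * (x + y) - (x - 1) * (x + y) := by
    simp [dv, xv]
  rw [this]
  ring

include hE hx in
lemma dv34 : dv x y 3 4 = - ((x - 1) * y ^ 2 / x) := by
  have : dv x y 3 4 = y * (x + y) / x - x ^ 2 * (x - 1) := by
    simp [dv, xv]
  rw [this]
  field_simp
  linear_combination (x : F) * hE

include hE hx in
lemma dv35 : dv x y 3 5 = - ((x - 1) ^ 2 * y / x) := by
  have : dv x y 3 5 = y * (x + y) / x - (x - 1) * (x + y) := by
    simp [dv, xv]
  rw [this]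
  field_simp
  linear_combination (1 : F) * hE

include hE hxy in
lemma dv45 : dv x y 4 5 = (x - 1) ^ 3 * y / (x + y) := by
  have : dv x y 4 5 = x ^ 2 * (x - 1) - (x - 1) * (x + y) := by
    simp [dv, xv]
  rw [this]
  field_simp
  linear_combination -(x - 1) * hE

/-- the points of the cross ratio of `τ^s x` -/
def qx : Fin 5 → Fin 6 × Fin 6 × Fin 6 × Fin 6 :=
  ![(0, 5, 2, 1), (0, 2, 3, 4), (0, 3, 1, 5), (0, 1, 4, 2), (0, 4, 5, 3)]

/-- the points of the cross ratio of `-τ^s y` -/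
def qy : Fin 5 → Fin 6 × Fin 6 × Fin 6 × Fin 6 :=
  ![(0, 1, 2, 3), (0, 4, 3, 1), (0, 5, 1, 4), (0, 2, 4, 5), (0, 3, 5, 2)]

lemma CR0 {b c d : Fin 6} (hb : b ≠ 0) (hc : c ≠ 0) :
    CR x y 0 b c d = dv x y c d / dv x y b d := by
  unfold CR; rw [dv0 hb, dv0 hc, one_mul, one_mul]

include hE hx hx1 hy hxy in
theorem tx_eq (s : Fin 5) :
    tx x y s = CR x y (qx s).1 (qx s).2.1 (qx s).2.2.1 (qx s).2.2.2 := by
  have h21 := dv_swap (x := x) (y := y) 1 2
  have h51 := dv_swap (x := x) (y := y) 1 5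
  have h42 := dv_swap (x := x) (y := y) 2 4
  have h53 := dv_swap (x := x) (y := y) 3 5
  have h43 := dv_swap (x := x) (y := y) 3 4
  have a12 := dv12 (x := x) (y := y)
  have a15 := dv15 (x := x) (y := y)
  have a24 := dv24 (x := x) (y := y)
  have a34 := dv34 hE hx
  have a35 := dv35 hE hx
  have a45 := dv45 (x := x) (y := y) hE hxy
  have a54 := dv_swap (x := x) (y := y) 4 5
  fin_cases s
  · show x = CR x y 0 5 2 1
    rw [CR0 (by decide) (by decide), h21, h51, a12, a15]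
    field_simp
  · show -y / x ^ 2 = CR x y 0 2 3 4
    rw [CR0 (by decide) (by decide), a34, a24]
    field_simp
  · show x * (x + y) / ((x - 1) * y) = CR x y 0 3 1 5
    rw [CR0 (by decide) (by decide), a15, a35]
    field_simp
  · show y / (x + y) = CR x y 0 1 4 2
    rw [CR0 (by decide) (by decide), h42, a24, a12]
    field_simp
  · show (x - 1) / y = CR x y 0 4 5 3
    rw [CR0 (by decide) (by decide), h53, h43, a35, a34]
    field_simp

include hE hx hx1 hy hxy in
theorem ty_eq (s : Fin 5) :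
    ty x y s = CR x y (qy s).1 (qy s).2.1 (qy s).2.2.1 (qy s).2.2.2 := by
  have h21 := dv_swap (x := x) (y := y) 1 2
  have h31 := dv_swap (x := x) (y := y) 1 3
  have h41 := dv_swap (x := x) (y := y) 1 4
  have h52 := dv_swap (x := x) (y := y) 2 5
  have h32 := dv_swap (x := x) (y := y) 2 3
  have a12 := dv12 (x := x) (y := y)
  have a13 := dv13 (x := x) (y := y)
  have a14 := dv14 (x := x) (y := y)
  have a15 := dv15 (x := x) (y := y)
  have a23 := dv23 hE hx
  have a24 := dv24 (x := x) (y := y)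
  have a25 := dv25 (x := x) (y := y)
  have a34 := dv34 hE hx
  have a35 := dv35 hE hx
  have a45 := dv45 (x := x) (y := y) hE hxy
  have a54 := dv_swap (x := x) (y := y) 4 5
  fin_cases s
  · show -y = CR x y 0 1 2 3
    rw [CR0 (by decide) (by decide), a23, a13]
    field_simp
  · show y * (x + y) / (x ^ 3 * (x - 1)) = CR x y 0 4 3 1
    rw [CR0 (by decide) (by decide), h31, h41, a13, a14]
    field_simp
  · show x ^ 2 * (x + y) / ((x - 1) ^ 2 * y) = CR x y 0 5 1 4
    rw [CR0 (by decide) (by decide), a54, a14, a45]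
    field_simp
  · show (x - 1) * y / (x + y) ^ 2 = CR x y 0 2 4 5
    rw [CR0 (by decide) (by decide), a45, a25]
    field_simp
  · show x * (x - 1) ^ 2 / y ^ 2 = CR x y 0 3 5 2
    rw [CR0 (by decide) (by decide), h52, h32, a23, a25]
    field_simp

/-- the inverse of a cross ratio -/
lemma CR_inv (a b c d : Fin 6) : (CR x y a b c d)⁻¹ = CR x y a c b d := by
  unfold CR; rw [inv_div]

include hE hx hx1 hy hxy in
lemma dv_ne {a b : Fin 6} (h : a ≠ b) : dv x y a b ≠ 0 := by
  have key : ∀ a b : Fin 6, a < b → dv x y a b ≠ 0 := by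
    intro a b hab
    fin_cases a <;> fin_cases b <;> first | (exfalso; revert hab; decide) | skip
    all_goals first
      | (show dv x y 0 _ ≠ 0; rw [dv0 (by decide)]; exact one_ne_zero)
      | (show dv x y 1 2 ≠ 0; rw [dv12]; simp [hx, hx1, hxy])
      | (show dv x y 1 3 ≠ 0; rw [dv13]; simp [hx, hy, hxy])
      | (show dv x y 1 4 ≠ 0; rw [dv14]; simp [hx, hx1])
      | (show dv x y 1 5 ≠ 0; rw [dv15]; simp [hx1, hxy])
      | (show dv x y 2 3 ≠ 0; rw [dv23 hE hx]; simp [hx, hy, hxy])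
      | (show dv x y 2 4 ≠ 0; rw [dv24]; simp [hx, hx1, hy])
      | (show dv x y 2 5 ≠ 0; rw [dv25]; simp [hx1, hxy])
      | (show dv x y 3 4 ≠ 0; rw [dv34 hE hx]; simp [hx, hx1, hy])
      | (show dv x y 3 5 ≠ 0; rw [dv35 hE hx]; simp [hx, hx1, hy])
      | (show dv x y 4 5 ≠ 0; rw [dv45 hE hxy]; simp [hx1, hxy, hy])
  rcases lt_or_gt_of_ne h with h | h
  · exact key a b h
  · rw [dv_swap]
    exact neg_ne_zero.mpr (key b a h)

include hE hx hx1 hy hxy in
/-- `1 - ` a cross ratio -/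
lemma one_sub_CR {a b c d : Fin 6} (hac : a ≠ c) (hbd : b ≠ d) :
    1 - CR x y a b c d = CR x y a d c b := by
  have h1 := dv_ne hE hx hx1 hy hxy hac
  have h2 := dv_ne hE hx hx1 hy hxy hbd
  unfold CR
  rw [dv_swap b d, dv_swap b c]
  field_simp
  linear_combination -(dv_pl (x := x) (y := y) a b c d)

/-- The cross ratios of four distinct points among `x(kP)`, `0 ≤ k ≤ 5`. -/
def IsCR (x y f : F) : Prop :=
  ∃ a b c d : Fin 6, a ≠ b ∧ a ≠ c ∧ a ≠ d ∧ b ≠ c ∧ b ≠ d ∧ c ≠ d ∧ f = CR x y a b c d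

lemma isCR_inv {f : F} (h : IsCR x y f) : IsCR x y f⁻¹ := by
  obtain ⟨a, b, c, d, h1, h2, h3, h4, h5, h6, rfl⟩ := h
  exact ⟨a, c, b, d, h2, h1, h3, h4.symm, h6, h5, CR_inv a b c d⟩

include hE hx hx1 hy hxy in
lemma isCR_one_sub {f : F} (h : IsCR x y f) : IsCR x y (1 - f) := by
  obtain ⟨a, b, c, d, h1, h2, h3, h4, h5, h6, rfl⟩ := h
  exact ⟨a, d, c, b, h3, h2, h1, h6.symm, h5.symm, h4.symm, one_sub_CR hE hx hx1 hy hxy h2 h5⟩

include hE hx hx1 hy hxy in
lemma isCR_tx (s : Fin 5) : IsCR x y (tx x y s) := by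
  refine ⟨_, _, _, _, ?_, ?_, ?_, ?_, ?_, ?_, tx_eq hE hx hx1 hy hxy s⟩ <;>
    revert s <;> decide

include hE hx hx1 hy hxy in
lemma isCR_ty (s : Fin 5) : IsCR x y (ty x y s) := by
  refine ⟨_, _, _, _, ?_, ?_, ?_, ?_, ?_, ?_, ty_eq hE hx hx1 hy hxy s⟩ <;>
    revert s <;> decide

lemma cr_ne_zero {f : F} (hE : y ^ 2 + y = x ^ 3 - x ^ 2) (hx : x ≠ 0) (hx1 : x - 1 ≠ 0)
    (hy : y ≠ 0) (hxy : x + y ≠ 0) (h : IsCR x y f) : f ≠ 0 := by
  obtain ⟨a, b, c, d, h1, h2, h3, h4, h5, h6, rfl⟩ := h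
  exact div_ne_zero (mul_ne_zero (dv_ne hE hx hx1 hy hxy h1) (dv_ne hE hx hx1 hy hxy h6))
    (mul_ne_zero (dv_ne hE hx hx1 hy hxy h2) (dv_ne hE hx hx1 hy hxy h5))

/-- the orbit of `z` under the six substitutions which permute `0, 1, ∞` -/
def S3 (f z : F) : Prop :=
  f = z ∨ f = 1 - z ∨ f = z⁻¹ ∨ f = 1 - z⁻¹ ∨ f = (1 - z)⁻¹ ∨ f = 1 - (1 - z)⁻¹

include hE hx hx1 hy hxy in
lemma isCR_S3 {f z : F} (h : IsCR x y z) (hf : S3 f z) : IsCR x y f := by
  have os : ∀ {g : F}, IsCR x y g → IsCR x y (1 - g) := fun hg =>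
    isCR_one_sub hE hx hx1 hy hxy hg
  rcases hf with rfl | rfl | rfl | rfl | rfl | rfl
  · exact h
  · exact os h
  · exact isCR_inv h
  · exact os (isCR_inv h)
  · exact isCR_inv (os h)
  · exact os (isCR_inv (os h))

section Mon

variable {k : Type*} [Field k] [Algebra k F]

include hE hx hx1 hy hxy in
lemma dv_mon {a b : Fin 6} (h : a ≠ b) : IsMon k x y (dv x y a b) := by
  have mul : ∀ {f g : F}, IsMon k x y f → IsMon k x y g → IsMon k x y (f * g) :=
    fun hf hg => isMon_mul hx hx1 hy hxy hf hg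
  have hm1 : IsMon k x y (-1 : F) := ⟨-1, neg_ne_zero.mpr one_ne_zero, 0, 0, 0, 0, by simp⟩
  have neg : ∀ {f : F}, IsMon k x y f → IsMon k x y (-f) := by
    intro f hf
    have := mul hm1 hf
    rwa [neg_one_mul] at this
  have dvd : ∀ {f g : F}, IsMon k x y f → IsMon k x y g → IsMon k x y (f / g) := by
    intro f g hf hg
    rw [div_eq_mul_inv]
    exact mul hf (isMon_inv hg)
  have one : IsMon k x y (1 : F) := ⟨1, one_ne_zero, 0, 0, 0, 0, by simp⟩
  have pow : ∀ {f : F} (n : ℕ), IsMon k x y f → IsMon k x y (f ^ n) := by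
    intro f n hf
    induction n with
    | zero => rw [pow_zero]; exact one
    | succ n ih => rw [pow_succ]; exact mul ih hf
  have mx : IsMon k x y x := isMon_x
  have mx1 : IsMon k x y (x - 1) := isMon_x1
  have my : IsMon k x y y := isMon_y
  have mxy : IsMon k x y (x + y) := isMon_xy
  have key : ∀ a b : Fin 6, a < b → IsMon k x y (dv x y a b) := by
    intro a b hab
    fin_cases a <;> fin_cases b <;> first | (exfalso; revert hab; decide) | skip
    all_goals first
      | (show IsMon k x y (dv x y 0 _); rw [dv0 (by decide)]; exact one)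
      | (show IsMon k x y (dv x y 1 2); rw [dv12]; exact neg (mul (mul mx mx1) mxy))
      | (show IsMon k x y (dv x y 1 3); rw [dv13]; exact neg (dvd (mul my mxy) mx))
      | (show IsMon k x y (dv x y 1 4); rw [dv14]; exact neg (mul (pow 2 mx) mx1))
      | (show IsMon k x y (dv x y 1 5); rw [dv15]; exact neg (mul mx1 mxy))
      | (show IsMon k x y (dv x y 2 3); rw [dv23 hE hx]; exact dvd (mul (pow 2 my) mxy) mx)
      | (show IsMon k x y (dv x y 2 4); rw [dv24]; exact mul (mul mx mx1) my)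
      | (show IsMon k x y (dv x y 2 5); rw [dv25]; exact mul (pow 2 mx1) mxy)
      | (show IsMon k x y (dv x y 3 4); rw [dv34 hE hx]
         exact neg (dvd (mul mx1 (pow 2 my)) mx))
      | (show IsMon k x y (dv x y 3 5); rw [dv35 hE hx]
         exact neg (dvd (mul (pow 2 mx1) my) mx))
      | (show IsMon k x y (dv x y 4 5); rw [dv45 hE hxy]
         exact dvd (mul (pow 3 mx1) my) mxy)
  rcases lt_or_gt_of_ne h with h | h
  · exact key a b h
  · rw [dv_swap]
    exact neg (key b a h)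

include hE hx hx1 hy hxy in
/-- a cross ratio is a unit, and so is `1 - ` the cross ratio -/
lemma isCR_mon {f : F} (h : IsCR x y f) : IsMon k x y f := by
  obtain ⟨a, b, c, d, h1, h2, h3, h4, h5, h6, rfl⟩ := h
  have mul : ∀ {f g : F}, IsMon k x y f → IsMon k x y g → IsMon k x y (f * g) :=
    fun hf hg => isMon_mul hx hx1 hy hxy hf hg
  unfold CR
  rw [div_eq_mul_inv]
  exact mul (mul (dv_mon hE hx hx1 hy hxy h1) (dv_mon hE hx hx1 hy hxy h6))
    (isMon_inv (mul (dv_mon hE hx hx1 hy hxy h2) (dv_mon hE hx hx1 hy hxy h5)))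

end Mon

end Pool.Agent.K4C
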