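import Pool.Agent.Lib_helper60.K4C.Tate

set_option autoImplicit false

/-!
# The discriminant of the universal curve
-/

open Polynomial

namespace Pool.Agent.K4C

variable {F : Type*} [Field F]

/-- The modular unit `h`: its zeros are `-(2P)` and the five cusps of `X₁(11)` which are not
rational. -/
def hh (x y : F) : F := x ^ 3 - 5 * x ^ 2 - 3 * x * y + 2 * x + 2 * y + 1

variable {x y : F}

/-- The discriminant. -/
theorem disc_eq (hE : y ^ 2 + y = x ^ 3 - x ^ 2) (hx : x ≠ 0) (hxy : x + y ≠ 0) :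
    (TW x y).Δ = (x - 1) ^ 6 * y ^ 5 * (x + y) ^ 2 * hh x y / x := by
  have h1 : (TW x y).Δ = (x * (x - 1) * (x + y)) ^ 3 *
      (y * (x + y) / x * (y * (x + y) / x - 1) ^ 3 - x * (x - 1) * (x + y) *
        (8 * (y * (x + y) / x) ^ 2 + 20 * (y * (x + y) / x) - 1) +
        16 * (x * (x - 1) * (x + y)) ^ 2) := by
    simp only [WeierstrassCurve.Δ, WeierstrassCurve.b₂, WeierstrassCurve.b₄, WeierstrassCurve.b₆,
      WeierstrassCurve.b₈, TW]
    ring
  have h2 : (y * (x + y) / x * (y * (x + y) / x - 1) ^ 3 - x * (x - 1) * (x + y) *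
        (8 * (y * (x + y) / x) ^ 2 + 20 * (y * (x + y) / x) - 1) +
        16 * (x * (x - 1) * (x + y)) ^ 2) = (x - 1) ^ 3 * y ^ 5 * hh x y / (x ^ 4 * (x + y)) := by
    unfold hh
    field_simp
    linear_combination (-16*x^8 -48*x^7*y -48*x^6*y^2 -16*x^5*y^3 +x^3*y^5 +16*x^7 +48*x^6*y
      +40*x^5*y^2 +9*x^2*y^5 +5*x*y^6 +y^7 +4*x^5*y +12*x^4*y^2 +12*x^3*y^3 -5*x^2*y^4 -8*x*y^5
      -y^6 -x^5 -2*x^4*y -x^3*y^2 -x^2*y^3 -x*y^4 +y^5 +y^4) * hE
  rw [h1, h2]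
  field_simp

lemma hh_ev {k : Type*} [Field k] [Algebra k F] :
    hh x y = ev x y (X ^ 3 - 5 * X ^ 2 + 2 * X + 1 : k[X]) (-3 * X + 2) := by
  unfold hh ev
  simp only [map_add, map_sub, map_mul, map_pow, aeval_X, map_one, map_neg, map_ofNat]
  ring

theorem hh_ne {k : Type*} [Field k] [Algebra k F] (hE : y ^ 2 + y = x ^ 3 - x ^ 2)
    (hx : Transcendental k x) : hh x y ≠ 0 := by
  rw [hh_ev (k := k)]
  apply ev_ne hE hx
  intro h0
  have h1 := (nm_deg (X ^ 3 - 5 * X ^ 2 + 2 * X + 1 : k[X]) (-3 * X + 2)).1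
  rw [h0, natDegree_zero] at h1
  have h2 : (X ^ 3 - 5 * X ^ 2 + 2 * X + 1 : k[X]).natDegree = 3 := by
    compute_degree!
  omega

theorem disc_ne {k : Type*} [Field k] [Algebra k F] (hE : y ^ 2 + y = x ^ 3 - x ^ 2)
    (hx : Transcendental k x) : (TW x y).Δ ≠ 0 := by
  have hx0 := x_ne hx
  have hx1 := x1_ne hx
  have hy := y_ne hE hx
  have hxy := xy_ne hE hx
  rw [disc_eq hE hx0 hxy]
  have := hh_ne hE hx
  exact div_ne_zero (mul_ne_zero (mul_ne_zero (mul_ne_zero (pow_ne_zero _ hx1)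
    (pow_ne_zero _ hy)) (pow_ne_zero _ hxy)) this) hx0

end Pool.Agent.K4C
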