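import Pool.Agent.Lib_helper60.K4C.Irr
import Pool.Agent.Lib_helper60.K4C.Disc

set_option autoImplicit false

/-!
# The units of `ℚ[x, y, 1/(x(x-1)h)]`: all ten cusps of `X₁(11)`
-/

open Polynomial

namespace Pool.Agent.K4C

/-- `h = ph + qh y` -/
noncomputable def ph : ℚ[X] := X ^ 3 - 5 * X ^ 2 + 2 * X + 1

/-- `h = ph + qh y` -/
noncomputable def qh : ℚ[X] := -3 * X + 2

lemma nm_h : nm ph qh = (X - 1) * P5 := by
  unfold nm ph qh P5; ring

/-- `qh` times the value of `p + q y` at the conjugate of the zeros of `h` -/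
noncomputable def vl (p q : ℚ[X]) : ℚ[X] := p * qh + q * (ph - qh)

lemma vl_mul (p q p' q' : ℚ[X]) :
    vl p q * vl p' q' = qh * vl (p * p' + q * q' * (X ^ 2 * (X - 1))) (p * q' + q * p' - q * q') +
      q * q' * nm ph qh := by
  unfold vl nm; ring

lemma vl_nm (p q : ℚ[X]) :
    qh ^ 2 * nm p q = (p * qh - q * ph) * vl p q + q ^ 2 * nm ph qh := by
  unfold vl nm; ring

lemma P5_qh : ¬ P5 ∣ qh := by
  apply P5_not_dvd
  · intro h
    have := congrArg (eval 0) h
    simp [qh] at this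
  · have : qh.natDegree ≤ 1 := by unfold qh; compute_degree
    omega

lemma P5_val : ¬ P5 ∣ X * (X - 1) * (2 * ph - qh) := by
  intro h
  rcases P5_prime.dvd_or_dvd h with h | h
  · rcases P5_prime.dvd_or_dvd h with h | h
    · exact P5_not_dvd X_ne_zero (by simp) h
    · exact P5_not_dvd X1_ne (by
        have : (X - 1 : ℚ[X]).natDegree ≤ 1 := by compute_degree
        omega) h
  · apply P5_not_dvd _ _ h
    · intro h
      have := congrArg (eval 1) h
      simp [qh, ph] at this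
      norm_num at this
    · have : (2 * ph - qh : ℚ[X]).natDegree ≤ 3 := by unfold qh ph; compute_degree
      omega

/-- the pair of the power `(x(x-1)h)^N` -/
noncomputable def pr : ℕ → ℚ[X] × ℚ[X]
  | 0 => (1, 0)
  | N + 1 =>
    ((pr N).1 * (X * (X - 1) * ph) + (pr N).2 * (X * (X - 1) * qh) * (X ^ 2 * (X - 1)),
      (pr N).1 * (X * (X - 1) * qh) + (pr N).2 * (X * (X - 1) * ph) -
        (pr N).2 * (X * (X - 1) * qh))

lemma pr_vl (N : ℕ) : ¬ P5 ∣ vl (pr N).1 (pr N).2 := by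
  induction N with
  | zero =>
    show ¬ P5 ∣ vl 1 0
    have : vl 1 0 = qh := by unfold vl; ring
    rw [this]; exact P5_qh
  | succ N ih =>
    intro h
    have h1 := vl_mul (pr N).1 (pr N).2 (X * (X - 1) * ph) (X * (X - 1) * qh)
    have h2 : P5 ∣ vl (pr N).1 (pr N).2 * vl (X * (X - 1) * ph) (X * (X - 1) * qh) := by
      rw [h1, nm_h]
      refine dvd_add (Dvd.dvd.mul_left h _) ?_
      exact Dvd.dvd.mul_left (dvd_mul_left _ _) _
    rcases P5_prime.dvd_or_dvd h2 with h3 | h3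
    · exact ih h3
    · have e : vl (X * (X - 1) * ph) (X * (X - 1) * qh) = qh * (X * (X - 1) * (2 * ph - qh)) := by
        unfold vl; ring
      rw [e] at h3
      rcases P5_prime.dvd_or_dvd h3 with h4 | h4
      · exact P5_qh h4
      · exact P5_val h4

lemma pr_nm (N : ℕ) : nm (pr N).1 (pr N).2 = (X * (X - 1)) ^ (2 * N) * ((X - 1) * P5) ^ N := by
  induction N with
  | zero => show nm 1 0 = _; unfold nm; simp
  | succ N ih =>
    have h1 := nm_mul (pr N).1 (pr N).2 (X * (X - 1) * ph) (X * (X - 1) * qh)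
    show nm ((pr N).1 * (X * (X - 1) * ph) + (pr N).2 * (X * (X - 1) * qh) * (X ^ 2 * (X - 1)))
      ((pr N).1 * (X * (X - 1) * qh) + (pr N).2 * (X * (X - 1) * ph) -
        (pr N).2 * (X * (X - 1) * qh)) = _
    rw [← h1, ih]
    have h2 : nm (X * (X - 1) * ph) (X * (X - 1) * qh) = (X * (X - 1)) ^ 2 * nm ph qh := by
      unfold nm; ring
    rw [h2, nm_h]
    ring

section Field

variable {F : Type*} [Field F] [Algebra ℚ F] {x y : F}

lemma hh_ev' : hh x y = ev x y ph qh := by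
  rw [hh_ev (k := ℚ)]; rfl

lemma pr_ev (hE : y ^ 2 + y = x ^ 3 - x ^ 2) (N : ℕ) :
    ev x y (pr N).1 (pr N).2 = (x * (x - 1) * hh x y) ^ N := by
  induction N with
  | zero => show ev x y 1 0 = _; unfold ev; simp
  | succ N ih =>
    have h1 := ev_mul hE (pr N).1 (pr N).2 (X * (X - 1) * ph) (X * (X - 1) * qh)
    show ev x y ((pr N).1 * (X * (X - 1) * ph) + (pr N).2 * (X * (X - 1) * qh) * (X ^ 2 * (X - 1)))
      ((pr N).1 * (X * (X - 1) * qh) + (pr N).2 * (X * (X - 1) * ph) -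
        (pr N).2 * (X * (X - 1) * qh)) = _
    rw [← h1, ih, pow_succ]
    congr 1
    rw [hh_ev']
    unfold ev
    simp only [map_mul, map_sub, aeval_X, map_one]
    ring

lemma ev_inj (hE : y ^ 2 + y = x ^ 3 - x ^ 2) (hx : Transcendental ℚ x) {p q p' q' : ℚ[X]}
    (h : ev x y p q = ev x y p' q') : p = p' ∧ q = q' := by
  have h1 : ev x y (p - p') (q - q') = 0 := by
    have : ev x y (p - p') (q - q') = ev x y p q - ev x y p' q' := by
      unfold ev; simp only [map_sub]; ring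
    rw [this, h, sub_self]
  obtain ⟨h2, h3⟩ := ev_eq_zero hE hx h1
  exact ⟨sub_eq_zero.mp h2, sub_eq_zero.mp h3⟩

/-- `p + q y` divides a power of `x(x-1)h` -/
def Dv (x y : F) (p q : ℚ[X]) : Prop :=
  ∃ (p' q' : ℚ[X]) (N : ℕ), ev x y p q * ev x y p' q' = (x * (x - 1) * hh x y) ^ N

lemma dv_val (hE : y ^ 2 + y = x ^ 3 - x ^ 2) (hx : Transcendental ℚ x) {p q : ℚ[X]}
    (h : Dv x y p q) : ¬ P5 ∣ vl p q := by
  obtain ⟨p', q', N, h⟩ := h
  rw [ev_mul hE, ← pr_ev hE] at h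
  obtain ⟨h1, h2⟩ := ev_inj hE hx h
  intro h3
  have h4 := vl_mul p q p' q'
  rw [h1, h2, nm_h] at h4
  have h5 : P5 ∣ qh * vl (pr N).1 (pr N).2 := by
    have : qh * vl (pr N).1 (pr N).2 = vl p q * vl p' q' - q * q' * ((X - 1) * P5) := by
      rw [h4]; ring
    rw [this]
    exact dvd_sub (Dvd.dvd.mul_right h3 _) (Dvd.dvd.mul_left (dvd_mul_left _ _) _)
  rcases P5_prime.dvd_or_dvd h5 with h6 | h6
  · exact P5_qh h6
  · exact pr_vl N h6

/-- division by `h` -/
lemma step {p q : ℚ[X]} (h1 : P5 ∣ nm p q) (h2 : ¬ P5 ∣ vl p q) :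
    ∃ P Q : ℚ[X], nm P Q * P5 = nm p q * (X - 1) ∧
      P5 * P = p * ph - p * qh - q * qh * (X ^ 2 * (X - 1)) ∧ P5 * Q = q * ph - p * qh := by
  have h3 : P5 ∣ p * qh - q * ph := by
    have h4 := vl_nm p q
    have h5 : P5 ∣ (p * qh - q * ph) * vl p q := by
      have : (p * qh - q * ph) * vl p q = qh ^ 2 * nm p q - q ^ 2 * ((X - 1) * P5) := by
        rw [h4, nm_h]; ring
      rw [this]
      exact dvd_sub (Dvd.dvd.mul_left h1 _) (Dvd.dvd.mul_left (dvd_mul_left _ _) _)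
    exact (P5_prime.dvd_or_dvd h5).resolve_right h2
  obtain ⟨Q, hQ⟩ := h3
  have h6 : P5 ∣ p * ph - p * qh - q * qh * (X ^ 2 * (X - 1)) := by
    have h7 : P5 ∣ qh * (p * ph - p * qh - q * qh * (X ^ 2 * (X - 1))) := by
      have : qh * (p * ph - p * qh - q * qh * (X ^ 2 * (X - 1))) =
          (p * qh - q * ph) * (ph - qh) + q * nm ph qh := by unfold nm; ring
      rw [this, hQ, nm_h]
      exact dvd_add (Dvd.dvd.mul_right (dvd_mul_right _ _) _)
        (Dvd.dvd.mul_left (dvd_mul_left _ _) _)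
    exact (P5_prime.dvd_or_dvd h7).resolve_left P5_qh
  obtain ⟨P, hP⟩ := h6
  refine ⟨P, -Q, ?_, hP.symm, ?_⟩
  · have hne : (P5 : ℚ[X]) ≠ 0 := P5_irr.ne_zero
    apply mul_left_cancel₀ hne
    have e1 : P5 * (nm P (-Q) * P5) = nm (P5 * P) (P5 * (-Q)) := by unfold nm; ring
    have e2 : P5 * (-Q) = q * ph - p * qh := by linear_combination hQ
    rw [e1, ← hP, e2]
    have e3 : nm (p * ph - p * qh - q * qh * (X ^ 2 * (X - 1))) (q * ph - p * qh) =
        nm p q * nm ph qh := by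
      unfold nm; ring
    rw [e3, nm_h]
    ring
  · linear_combination hQ

/-- a function whose norm is `c x^i (x-1)^j P5(x)^l` and which divides a power of `x(x-1)h` -/
lemma ten_of_norm (hE : y ^ 2 + y = x ^ 3 - x ^ 2) (hx : Transcendental ℚ x) :
    ∀ (l i j : ℕ) (p q : ℚ[X]) (c : ℚ), c ≠ 0 → nm p q = C c * X ^ i * (X - 1) ^ j * P5 ^ l →
      Dv x y p q → ∃ m : ℤ, IsMon ℚ x y (ev x y p q * hh x y ^ m) := by
  have hx0 := x_ne hx
  have hx1 := x1_ne hx
  have hy := y_ne hE hx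
  have hxy := xy_ne hE hx
  have hh0 := hh_ne hE hx
  intro l
  induction l with
  | zero =>
    intro i j p q c hc h _
    refine ⟨0, ?_⟩
    rw [zpow_zero, mul_one]
    exact mon_of_norm hE hx j i p q c hc (by rw [h]; ring)
  | succ l ih =>
    intro i j p q c hc h hD
    have h1 : P5 ∣ nm p q := by rw [h, pow_succ]; exact ⟨C c * X ^ i * (X - 1) ^ j * P5 ^ l, by ring⟩
    obtain ⟨P, Q, hN, hP, hQ⟩ := step h1 (dv_val hE hx hD)
    have hN' : nm P Q = C c * X ^ i * (X - 1) ^ (j + 1) * P5 ^ l := by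
      apply mul_right_cancel₀ (P5_irr.ne_zero : (P5 : ℚ[X]) ≠ 0)
      rw [hN, h]; ring
    have hrel : ev x y p q * (x - 1) = hh x y * ev x y P Q := by
      have hPx := congrArg (aeval x) hP
      have hQx := congrArg (aeval x) hQ
      simp only [map_mul, map_sub, map_pow, aeval_X, map_one] at hPx hQx
      have hP5 : aeval x P5 ≠ 0 := aeval_ne hx P5_irr.ne_zero
      apply mul_right_cancel₀ hP5
      -- `h · h̄ = (x-1) P5(x)`
      have e1 : hh x y * ev x y (ph - qh) (-qh) = (x - 1) * aeval x P5 := by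
        rw [hh_ev', ev_conj hE, nm_h]
        simp only [map_mul, map_sub, aeval_X, map_one]
      have e2 : ev x y p q * ev x y (ph - qh) (-qh) = aeval x P5 * ev x y P Q := by
        rw [ev_mul hE]
        unfold ev
        simp only [map_add, map_mul, map_sub, map_neg, map_pow, aeval_X, map_one]
        linear_combination -hPx - y * hQx
      linear_combination (-ev x y p q) * e1 + hh x y * e2
    have hD' : Dv x y P Q := by
      obtain ⟨p', q', N, hpq⟩ := hD
      refine ⟨(X * ph) * (ph * p' + qh * q' * (X ^ 2 * (X - 1))) +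
          (X * qh) * (ph * q' + qh * p' - qh * q') * (X ^ 2 * (X - 1)),
        (X * ph) * (ph * q' + qh * p' - qh * q') +
          (X * qh) * (ph * p' + qh * q' * (X ^ 2 * (X - 1))) -
          (X * qh) * (ph * q' + qh * p' - qh * q'), N + 1, ?_⟩
      rw [← ev_mul hE, ← ev_mul hE, ← hh_ev']
      have e3 : ev x y (X * ph) (X * qh) = x * hh x y := by
        rw [hh_ev']
        unfold ev
        simp only [map_mul, aeval_X]
        ring
      rw [e3, pow_succ, ← hpq]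
      linear_combination (-(x * hh x y * ev x y p' q')) * hrel
    obtain ⟨m, hm⟩ := ih i (j + 1) P Q c hc hN' hD'
    refine ⟨m - 1, ?_⟩
    have e4 : ev x y p q * hh x y ^ (m - 1) = ev x y P Q * hh x y ^ m * (x - 1)⁻¹ := by
      rw [zpow_sub₀ hh0, zpow_one]
      field_simp
      linear_combination hrel
    rw [e4]
    exact isMon_mul hx0 hx1 hy hxy hm (isMon_inv isMon_x1)

/-- The ring of the functions which are regular outside of the ten cusps. -/
def RT (x y : F) : Subalgebra ℚ F :=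
  Algebra.adjoin ℚ {x, y, (x * (x - 1) * hh x y)⁻¹}

lemma mem_RT (hE : y ^ 2 + y = x ^ 3 - x ^ 2) (hx : Transcendental ℚ x) {f : F}
    (hf : f ∈ RT x y) :
    ∃ (n : ℕ) (p q : ℚ[X]), f * (x * (x - 1) * hh x y) ^ n = ev x y p q := by
  have hx0 := x_ne hx
  have hx1 := x1_ne hx
  have hh0 := hh_ne hE hx
  have hD : x * (x - 1) * hh x y ≠ 0 := mul_ne_zero (mul_ne_zero hx0 hx1) hh0
  unfold RT at hf
  induction hf using Algebra.adjoin_induction with
  | mem u hu =>
    rcases hu with rfl | rfl | rfl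
    · exact ⟨0, X, 0, by unfold ev; simp⟩
    · exact ⟨0, 0, 1, by unfold ev; simp⟩
    · exact ⟨1, 1, 0, by rw [pow_one, inv_mul_cancel₀ hD]; unfold ev; simp⟩
  | algebraMap r => exact ⟨0, C r, 0, by unfold ev; simp⟩
  | add u v _ _ hu hv =>
    obtain ⟨n, p, q, h⟩ := hu
    obtain ⟨m, p', q', h'⟩ := hv
    refine ⟨n + m, (p * (pr m).1 + q * (pr m).2 * (X ^ 2 * (X - 1))) +
        (p' * (pr n).1 + q' * (pr n).2 * (X ^ 2 * (X - 1))),
      (p * (pr m).2 + q * (pr m).1 - q * (pr m).2) +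
        (p' * (pr n).2 + q' * (pr n).1 - q' * (pr n).2), ?_⟩
    have e : (u + v) * (x * (x - 1) * hh x y) ^ (n + m) =
        (u * (x * (x - 1) * hh x y) ^ n) * (x * (x - 1) * hh x y) ^ m +
          (v * (x * (x - 1) * hh x y) ^ m) * (x * (x - 1) * hh x y) ^ n := by
      rw [pow_add]; ring
    have e2 : ∀ a b a' b' : ℚ[X], ev x y (a + a') (b + b') = ev x y a b + ev x y a' b' := by
      intro a b a' b'
      unfold ev; simp only [map_add]; ring
    rw [e, h, h', e2, ← ev_mul hE, ← ev_mul hE, pr_ev hE, pr_ev hE]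
  | mul u v _ _ hu hv =>
    obtain ⟨n, p, q, h⟩ := hu
    obtain ⟨m, p', q', h'⟩ := hv
    refine ⟨n + m, p * p' + q * q' * (X ^ 2 * (X - 1)), p * q' + q * p' - q * q', ?_⟩
    rw [← ev_mul hE, ← h, ← h', pow_add]
    ring

lemma dvd_XXP {a : ℚ[X]} {M N : ℕ} (h : a ∣ (X * (X - 1)) ^ M * ((X - 1) * P5) ^ N) :
    ∃ (c : ℚ) (i j l : ℕ), c ≠ 0 ∧ a = C c * X ^ i * (X - 1) ^ j * P5 ^ l := by
  have h' : a ∣ (X * (X - 1)) ^ (M + N) * P5 ^ N := by
    refine h.trans ⟨X ^ N, ?_⟩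
    rw [mul_pow, mul_pow, mul_pow, pow_add, pow_add]
    ring
  obtain ⟨a1, a2, h1, h2, rfl⟩ := exists_dvd_and_dvd_of_dvd_mul h'
  obtain ⟨c, i, j, hc, rfl⟩ := dvd_XX h1
  obtain ⟨l, -, u, hu⟩ := (dvd_prime_pow P5_prime N).mp h2
  obtain ⟨d, hd, hd'⟩ := Polynomial.isUnit_iff.mp (u⁻¹).isUnit
  refine ⟨c * d, i, j, l, mul_ne_zero hc hd.ne_zero, ?_⟩
  have e1 : a2 = C d * P5 ^ l := by
    rw [hd', ← hu, mul_comm a2, ← mul_assoc, Units.inv_mul, one_mul]
  rw [e1, map_mul]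
  ring

/-- **The units** of the ring of functions which are regular outside of the ten cusps. -/
theorem units10_iff (hE : y ^ 2 + y = x ^ 3 - x ^ 2) (hx : Transcendental ℚ x) (f : F) :
    (f ≠ 0 ∧ f ∈ RT x y ∧ f⁻¹ ∈ RT x y) ↔ ∃ m : ℤ, IsMon ℚ x y (f * hh x y ^ m) := by
  have hx0 := x_ne hx
  have hx1 := x1_ne hx
  have hy := y_ne hE hx
  have hxy := xy_ne hE hx
  have hh0 := hh_ne hE hx
  have hD : x * (x - 1) * hh x y ≠ 0 := mul_ne_zero (mul_ne_zero hx0 hx1) hh0
  have mul : ∀ {f g : F}, IsMon ℚ x y f → IsMon ℚ x y g → IsMon ℚ x y (f * g) :=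
    fun hf hg => isMon_mul hx0 hx1 hy hxy hf hg
  constructor
  · rintro ⟨hf0, hf, hf'⟩
    obtain ⟨n, p, q, h⟩ := mem_RT hE hx hf
    obtain ⟨m, p', q', h'⟩ := mem_RT hE hx hf'
    have e1 : ev x y p q * ev x y p' q' = (x * (x - 1) * hh x y) ^ (n + m) := by
      rw [← h, ← h', pow_add]
      field_simp
    have hDv : Dv x y p q := ⟨p', q', n + m, e1⟩
    rw [ev_mul hE, ← pr_ev hE] at e1
    obtain ⟨e2, e3⟩ := ev_inj hE hx e1
    have e4 : nm p q * nm p' q' = (X * (X - 1)) ^ (2 * (n + m)) * ((X - 1) * P5) ^ (n + m) := by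
      rw [nm_mul, e2, e3, pr_nm]
    obtain ⟨c, i, j, l, hc, hN⟩ := dvd_XXP (Dvd.intro _ e4)
    obtain ⟨r, hr⟩ := ten_of_norm hE hx l i j p q c hc hN hDv
    refine ⟨r + n, ?_⟩
    have e5 : f * hh x y ^ (r + n) = ev x y p q * hh x y ^ r * ((x * (x - 1)) ^ n)⁻¹ := by
      rw [← h, zpow_add₀ hh0, zpow_natCast, mul_pow]
      field_simp
    rw [e5]
    refine mul hr (isMon_inv ⟨1, one_ne_zero, n, n, 0, 0, ?_⟩)
    rw [mul_pow]; simp
  · rintro ⟨m, hm⟩
    have mx : x ∈ RT x y := Algebra.subset_adjoin (by simp)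
    have my : y ∈ RT x y := Algebra.subset_adjoin (by simp)
    have mi : (x * (x - 1) * hh x y)⁻¹ ∈ RT x y := Algebra.subset_adjoin (by simp)
    have mh : hh x y ∈ RT x y := by
      have hc : ∀ n : ℕ, ((n : ℕ) : F) ∈ RT x y := fun n => natCast_mem _ n
      unfold hh
      refine add_mem (add_mem (add_mem (sub_mem (sub_mem (pow_mem mx 3)
        (mul_mem (hc 5) (pow_mem mx 2))) (mul_mem (mul_mem (hc 3) mx) my))
        (mul_mem (hc 2) mx)) (mul_mem (hc 2) my)) (one_mem _)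
    have le : RR ℚ x y ≤ RT x y := by
      unfold RR
      rw [Algebra.adjoin_le_iff]
      rintro u (rfl | rfl | rfl)
      · exact mx
      · exact my
      · have : (x * (x - 1))⁻¹ = hh x y * (x * (x - 1) * hh x y)⁻¹ := by field_simp
        show (x * (x - 1))⁻¹ ∈ RT x y
        rw [this]; exact mul_mem mh mi
    have ih : (hh x y)⁻¹ ∈ RT x y := by
      have : (hh x y)⁻¹ = x * (x - 1) * (x * (x - 1) * hh x y)⁻¹ := by field_simp
      rw [this]; exact mul_mem (mul_mem mx (sub_mem mx (one_mem _))) mi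
    have hz : ∀ n : ℤ, hh x y ^ n ∈ RT x y := fun n => zpow_mem mh ih n
    have hf0 : f ≠ 0 := by
      rintro rfl
      rw [zero_mul] at hm
      exact isMon_ne hx0 hx1 hy hxy hm rfl
    have e1 : f = (f * hh x y ^ m) * hh x y ^ (-m) := by
      rw [mul_assoc, ← zpow_add₀ hh0]; simp
    have e2 : f⁻¹ = (f * hh x y ^ m)⁻¹ * hh x y ^ m := by
      have := zpow_ne_zero m hh0
      field_simp
    refine ⟨hf0, ?_, ?_⟩
    · rw [e1]; exact mul_mem (le (mon_mem hE hx hm)) (hz _)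
    · rw [e2]; exact mul_mem (le (mon_mem hE hx (isMon_inv hm))) (hz _)

end Field

end Pool.Agent.K4C
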