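import Mathlib

set_option autoImplicit false

/-!
# The quintic `X⁵ - 18 X⁴ + 35 X³ - 16 X² - 2 X + 1` is irreducible over `ℚ`
-/

open Polynomial

namespace Pool.Agent.K4C

/-- the quintic over `ℤ` -/
noncomputable def qz : ℤ[X] := X ^ 5 - 18 * X ^ 4 + 35 * X ^ 3 - 16 * X ^ 2 - 2 * X + 1

/-- the quintic over `ℚ` -/
noncomputable def P5 : ℚ[X] := X ^ 5 - 18 * X ^ 4 + 35 * X ^ 3 - 16 * X ^ 2 - 2 * X + 1

instance : Fact (Nat.Prime 2) := ⟨Nat.prime_two⟩

lemma qz_map2 : qz.map (Int.castRingHom (ZMod 2)) = X ^ 5 + X ^ 3 + 1 := by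
  unfold qz
  simp only [Polynomial.map_add, Polynomial.map_sub, Polynomial.map_mul, Polynomial.map_pow,
    Polynomial.map_X, Polynomial.map_ofNat, Polynomial.map_one]
  have e2 : (2 : (ZMod 2)[X]) = 0 := by
    have : ((2 : ZMod 2)) = 0 := by decide
    rw [← C_ofNat, this, C_0]
  linear_combination (-9 * X ^ 4 + 17 * X ^ 3 - 8 * X ^ 2 - X) * e2

lemma coef5 {a0 a1 a2 a3 a4 : ZMod 2} (h : (X ^ 5 + C a4 * X ^ 4 + C a3 * X ^ 3 + C a2 * X ^ 2 +
    C a1 * X + C a0 : (ZMod 2)[X]) = X ^ 5 + X ^ 3 + 1) :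
    a0 = 1 ∧ a1 = 0 ∧ a2 = 0 ∧ a3 = 1 ∧ a4 = 0 := by
  have c0 := congrArg (fun p => coeff p 0) h
  have c1 := congrArg (fun p => coeff p 1) h
  have c2 := congrArg (fun p => coeff p 2) h
  have c3 := congrArg (fun p => coeff p 3) h
  have c4 := congrArg (fun p => coeff p 4) h
  simp only [coeff_add, coeff_C_mul, coeff_X_pow, coeff_X, coeff_C, coeff_one] at c0 c1 c2 c3 c4
  norm_num at c0 c1 c2 c3 c4
  exact ⟨c0, c1, c2, c3, c4⟩

lemma no41 : ∀ a b c d e : ZMod 2, ¬ (a * e = 1 ∧ a * d + e = 0 ∧ a * c + d = 0 ∧ a * b + c = 1 ∧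
    a + b = 0) := by
  decide

lemma no32 : ∀ a b c d e : ZMod 2, ¬ (b * e = 1 ∧ b * d + a * e = 0 ∧ b * c + a * d + e = 0 ∧
    b + a * c + d = 1 ∧ a + c = 0) := by
  decide

lemma irr2 : Irreducible (X ^ 5 + X ^ 3 + 1 : (ZMod 2)[X]) := by
  have hm : (X ^ 5 + X ^ 3 + 1 : (ZMod 2)[X]).Monic := by monicity!
  have hd : (X ^ 5 + X ^ 3 + 1 : (ZMod 2)[X]).natDegree = 5 := by compute_degree!
  have h1 : (X ^ 5 + X ^ 3 + 1 : (ZMod 2)[X]) ≠ 1 := by
    intro h
    rw [h] at hd
    simp at hd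
  rw [hm.irreducible_iff_natDegree']
  refine ⟨h1, ?_⟩
  intro f g hf hg hfg hmem
  rw [hd, Finset.mem_Ioc] at hmem
  have hdeg : f.natDegree + g.natDegree = 5 := by
    rw [← hd, ← hfg, hf.natDegree_mul hg]
  have hg12 : g.natDegree = 1 ∨ g.natDegree = 2 := by omega
  rcases hg12 with h | h
  · have hf4 : f.natDegree = 4 := by omega
    have eg : g = X + C (g.coeff 0) := by
      conv_lhs => rw [hg.as_sum, h]
      simp
    have ef : f = X ^ 4 + (C (f.coeff 3) * X ^ 3 + C (f.coeff 2) * X ^ 2 + C (f.coeff 1) * X +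
        C (f.coeff 0)) := by
      conv_lhs => rw [hf.as_sum, hf4]
      simp only [Finset.sum_range_succ, Finset.sum_range_zero, pow_zero, pow_one, mul_one, zero_add]
      ring
    generalize g.coeff 0 = a at eg
    generalize f.coeff 3 = b at ef
    generalize f.coeff 2 = c at ef
    generalize f.coeff 1 = d at ef
    generalize f.coeff 0 = e at ef
    have e1 : f * g = X ^ 5 + C (a + b) * X ^ 4 + C (a * b + c) * X ^ 3 + C (a * c + d) * X ^ 2 +
        C (a * d + e) * X + C (a * e) := by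
      rw [ef, eg]
      simp only [map_add, map_mul]
      ring
    exact no41 _ _ _ _ _ (coef5 (e1.symm.trans hfg))
  · have hf3 : f.natDegree = 3 := by omega
    have eg : g = X ^ 2 + (C (g.coeff 1) * X + C (g.coeff 0)) := by
      conv_lhs => rw [hg.as_sum, h]
      simp only [Finset.sum_range_succ, Finset.sum_range_zero, pow_zero, pow_one, mul_one, zero_add]
      ring
    have ef : f = X ^ 3 + (C (f.coeff 2) * X ^ 2 + C (f.coeff 1) * X +
        C (f.coeff 0)) := by
      conv_lhs => rw [hf.as_sum, hf3]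
      simp only [Finset.sum_range_succ, Finset.sum_range_zero, pow_zero, pow_one, mul_one, zero_add]
      ring
    generalize g.coeff 1 = a at eg
    generalize g.coeff 0 = b at eg
    generalize f.coeff 2 = c at ef
    generalize f.coeff 1 = d at ef
    generalize f.coeff 0 = e at ef
    have e1 : f * g = X ^ 5 + C (a + c) * X ^ 4 + C (b + a * c + d) * X ^ 3 +
        C (b * c + a * d + e) * X ^ 2 + C (b * d + a * e) * X + C (b * e) := by
      rw [ef, eg]
      simp only [map_add, map_mul]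
      ring
    exact no32 _ _ _ _ _ (coef5 (e1.symm.trans hfg))

lemma qz_monic : qz.Monic := by
  unfold qz
  monicity!

lemma qz_irr : Irreducible qz := by
  apply qz_monic.irreducible_of_irreducible_map (Int.castRingHom (ZMod 2))
  rw [qz_map2]
  exact irr2

lemma P5_eq : qz.map (Int.castRingHom ℚ) = P5 := by
  unfold qz P5
  simp only [Polynomial.map_add, Polynomial.map_sub, Polynomial.map_mul, Polynomial.map_pow,
    Polynomial.map_X, Polynomial.map_ofNat, Polynomial.map_one]

theorem P5_irr : Irreducible P5 := by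
  rw [← P5_eq]
  exact (qz_monic.irreducible_iff_irreducible_map_fraction_map (K := ℚ)).mp qz_irr

theorem P5_prime : Prime P5 := P5_irr.prime

lemma P5_natDegree : P5.natDegree = 5 := by
  unfold P5
  compute_degree!

/-- a nonzero polynomial of degree less than five is not divisible by the quintic -/
lemma P5_not_dvd {p : ℚ[X]} (hp : p ≠ 0) (hd : p.natDegree < 5) : ¬ P5 ∣ p := by
  intro h
  have := natDegree_le_of_dvd h hp
  rw [P5_natDegree] at this
  omega

end Pool.Agent.K4C
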