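import Mathlib

set_option autoImplicit false

/-!
# The units of `k[x, y, 1/(x(x-1))]`, `y² + y = x³ - x²`
-/

open Polynomial

namespace Pool.Agent.K4C

section Poly

variable {k : Type*} [Field k]

/-- The norm of `p + q y`. -/
noncomputable def nm (p q : k[X]) : k[X] := p ^ 2 - p * q - q ^ 2 * (X ^ 2 * (X - 1))

lemma nm_mul (p q p' q' : k[X]) :
    nm p q * nm p' q' =
      nm (p * p' + q * q' * (X ^ 2 * (X - 1))) (p * q' + q * p' - q * q') := by
  unfold nm; ring

lemma nm_conj (p q : k[X]) : nm (p - q) (-q) = nm p q := by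
  unfold nm; ring

lemma X1_ne : (X - 1 : k[X]) ≠ 0 := by
  have := X_sub_C_ne_zero (1 : k)
  rwa [map_one] at this

lemma prime_X1 : Prime (X - 1 : k[X]) := by
  have := prime_X_sub_C (1 : k)
  rwa [map_one] at this

lemma dvd_X1 (p : k[X]) : (X - 1 : k[X]) ∣ p ↔ p.eval 1 = 0 := by
  have := dvd_iff_isRoot (p := p) (a := (1 : k))
  rw [map_one] at this
  exact this

lemma dvd_X (p : k[X]) : (X : k[X]) ∣ p ↔ p.eval 0 = 0 := by
  rw [X_dvd_iff, coeff_zero_eq_eval_zero]

lemma natDegree_XX : (X ^ 2 * (X - 1) : k[X]).natDegree = 3 := by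
  rw [natDegree_mul (pow_ne_zero _ X_ne_zero) X1_ne, natDegree_X_pow]
  have := natDegree_X_sub_C (1 : k)
  rw [map_one] at this
  rw [this]

/-- the degree of the norm -/
lemma nm_deg (p q : k[X]) :
    2 * p.natDegree ≤ (nm p q).natDegree ∧ (q ≠ 0 → 2 * q.natDegree + 3 ≤ (nm p q).natDegree) := by
  by_cases hq : q = 0
  · subst hq
    refine ⟨?_, fun h => absurd rfl h⟩
    have : nm p 0 = p ^ 2 := by unfold nm; ring
    rw [this, natDegree_pow]
  · have hB : (q ^ 2 * (X ^ 2 * (X - 1))).natDegree = 2 * q.natDegree + 3 := by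
      rw [natDegree_mul (pow_ne_zero _ hq) (mul_ne_zero (pow_ne_zero _ X_ne_zero) X1_ne),
        natDegree_pow, natDegree_XX]
    rcases lt_or_ge (2 * q.natDegree + 3) (2 * p.natDegree) with h | h
    · have hp : p ≠ 0 := by
        rintro rfl
        simp at h
      have h1 : (p * q).natDegree < 2 * p.natDegree := by
        refine lt_of_le_of_lt natDegree_mul_le ?_
        omega
      have h2 : (p ^ 2).natDegree = 2 * p.natDegree := natDegree_pow _ _
      have h3 : (p ^ 2 - p * q).natDegree = 2 * p.natDegree := by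
        rw [natDegree_sub_eq_left_of_natDegree_lt (by rw [h2]; exact h1), h2]
      have h4 : (nm p q).natDegree = 2 * p.natDegree := by
        unfold nm
        rw [natDegree_sub_eq_left_of_natDegree_lt (by rw [h3, hB]; exact h), h3]
      rw [h4]
      exact ⟨le_rfl, fun _ => h.le⟩
    · have h1 : (p * q).natDegree < 2 * q.natDegree + 3 := by
        refine lt_of_le_of_lt natDegree_mul_le ?_
        omega
      have h2 : (p ^ 2).natDegree < 2 * q.natDegree + 3 := by
        rw [natDegree_pow]; omega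
      have h3 : (p ^ 2 - p * q).natDegree < 2 * q.natDegree + 3 :=
        lt_of_le_of_lt (natDegree_sub_le _ _) (max_lt h2 h1)
      have h4 : (nm p q).natDegree = 2 * q.natDegree + 3 := by
        unfold nm
        rw [natDegree_sub_eq_right_of_natDegree_lt (by rw [hB]; exact h3), hB]
      rw [h4]
      exact ⟨by omega, fun _ => le_rfl⟩

/-- no function with norm `c X^i`, `0 < i < 5`, vanishing only at `(0,0)` -/
lemma small {p q : k[X]} {c : k} (hc : c ≠ 0) {i : ℕ} (hi : i < 5) (h : nm p q = C c * X ^ i)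
    (hp : p.eval 0 = 0) (hq : q.eval 0 ≠ 0) : False := by
  have hq0 : q ≠ 0 := by rintro rfl; simp at hq
  have hdeg : (nm p q).natDegree = i := by rw [h, natDegree_C_mul_X_pow _ _ hc]
  obtain ⟨h1, h2⟩ := nm_deg p q
  have h2 := h2 hq0
  rw [hdeg] at h1 h2
  have hq1 : q = C (q.coeff 0) := eq_C_of_natDegree_eq_zero (by omega)
  have hp2 : p = C (p.coeff 2) * X ^ 2 + C (p.coeff 1) * X + C (p.coeff 0) := by
    have : p.natDegree ≤ 2 := by omega
    exact eq_quadratic_of_degree_le_two (natDegree_le_iff_degree_le.mp this)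
  rw [← coeff_zero_eq_eval_zero] at hp hq
  set a := p.coeff 1
  set d := p.coeff 2
  set e := q.coeff 0
  rw [hp, map_zero, add_zero] at hp2
  have e1 : nm p q = C (d ^ 2) * X ^ 4 + C (2 * a * d - e ^ 2) * X ^ 3 +
      C (a ^ 2 - d * e + e ^ 2) * X ^ 2 + C (- a * e) * X := by
    rw [hp2, hq1]
    unfold nm
    simp only [map_pow, map_mul, map_sub, map_add, map_neg, C_ofNat]
    ring
  rw [e1] at h
  have c1 := congrArg (fun f => coeff f 1) h
  have c2 := congrArg (fun f => coeff f 2) h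
  have c3 := congrArg (fun f => coeff f 3) h
  have c4 := congrArg (fun f => coeff f 4) h
  have hi3 : i = 3 ∨ i = 4 := by omega
  rcases hi3 with rfl | rfl
  · simp only [coeff_add, coeff_C_mul, coeff_X_pow, coeff_X] at c1 c2 c3 c4
    norm_num at c1 c2 c3 c4
    have ha : a = 0 := c1.resolve_right hq
    rw [ha, c4] at c2
    apply hq
    simpa using c2
  · simp only [coeff_add, coeff_C_mul, coeff_X_pow, coeff_X] at c1 c2 c3 c4
    norm_num at c1 c2 c3 c4
    have ha : a = 0 := c1.resolve_right hq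
    rw [ha] at c3
    apply hq
    simpa using c3

lemma nm_X_pow {p q : k[X]} (h : nm p q ≠ 0) : p ≠ 0 ∨ q ≠ 0 := by
  by_contra hh
  push Not at hh
  apply h
  rw [hh.1, hh.2]; unfold nm; ring

/-- division by `h = x² + xy + y`, of divisor `5 (0,0) - 5 O` -/
lemma div5 {p q : k[X]} {c : k} {i : ℕ} (h : nm p q = C c * X ^ (i + 5))
    (hp : p.eval 0 = 0) (hq : q.eval 0 ≠ 0) :
    ∃ P Q : k[X], X ^ 5 * P = p * (X ^ 2 - X - 1) - q * (X + 1) * (X ^ 2 * (X - 1)) ∧
      X ^ 5 * Q = - p * (X + 1) + q * X ^ 2 ∧ nm P Q = C (-c) * X ^ i := by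
  set w := p - q * (X ^ 2 - X ^ 3 + X ^ 4) with hw
  have h1 : X ^ 5 ∣ w * (w + q * (2 * (X ^ 2 - X ^ 3 + X ^ 4) - 1)) := by
    have e : w * (w + q * (2 * (X ^ 2 - X ^ 3 + X ^ 4) - 1)) =
        nm p q - X ^ 5 * (q ^ 2 * (-2 + 3 * X - 2 * X ^ 2 + X ^ 3)) := by
      rw [hw]; unfold nm; ring
    rw [e, h]
    refine dvd_sub ?_ (dvd_mul_right _ _)
    exact ⟨C c * X ^ i, by ring⟩
  have h2 : ¬ X ∣ (w + q * (2 * (X ^ 2 - X ^ 3 + X ^ 4) - 1)) := by
    rw [dvd_X]
    simp [hw, hp, hq]
  obtain ⟨r, hr⟩ : X ^ 5 ∣ w := prime_X.pow_dvd_of_dvd_mul_right 5 h2 h1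
  have hp' : p = q * (X ^ 2 - X ^ 3 + X ^ 4) + X ^ 5 * r := by rw [← hr, hw]; ring
  refine ⟨q * (-2 + X) + r * (X ^ 2 - X - 1), - q - r * (X + 1), ?_, ?_, ?_⟩
  · rw [hp']; ring
  · rw [hp']; ring
  · have hX : (X ^ 10 : k[X]) ≠ 0 := pow_ne_zero _ X_ne_zero
    apply mul_left_cancel₀ hX
    have e1 : X ^ 10 * nm (q * (-2 + X) + r * (X ^ 2 - X - 1)) (- q - r * (X + 1)) =
        - X ^ 5 * nm p q := by
      rw [hp']; unfold nm; ring
    rw [e1, h, map_neg]
    ring

end Poly

section Field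

variable {k F : Type*} [Field k] [Field F] [Algebra k F]

/-- The products `c x^a (x-1)^b y^d (x+y)^e`, `c` a nonzero constant. -/
def IsMon (k : Type*) {F : Type*} [Field k] [Field F] [Algebra k F] (x y f : F) : Prop :=
  ∃ c : k, c ≠ 0 ∧ ∃ a b d e : ℤ,
    f = algebraMap k F c * x ^ a * (x - 1) ^ b * y ^ d * (x + y) ^ e

/-- The ring of the functions which are regular outside of the five cusps. -/
def RR (k : Type*) {F : Type*} [Field k] [Field F] [Algebra k F] (x y : F) : Subalgebra k F :=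
  Algebra.adjoin k {x, y, (x * (x - 1))⁻¹}

/-- The value of `p + q y`. -/
noncomputable def ev (x y : F) (p q : k[X]) : F := aeval x p + aeval x q * y

variable {x y : F}

lemma aeval_ne (hx : Transcendental k x) {p : k[X]} (hp : p ≠ 0) : aeval x p ≠ 0 := by
  intro h
  exact hx ⟨p, hp, h⟩

lemma x_ne (hx : Transcendental k x) : x ≠ 0 := by
  have := aeval_ne hx (X_ne_zero (R := k))
  rwa [aeval_X] at this

lemma x1_ne (hx : Transcendental k x) : x - 1 ≠ 0 := by
  have := aeval_ne hx (X1_ne (k := k))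
  rwa [map_sub, aeval_X, map_one] at this

variable (hE : y ^ 2 + y = x ^ 3 - x ^ 2)

include hE

lemma y_ne (hx : Transcendental k x) : y ≠ 0 := by
  rintro rfl
  have h : x ^ 2 * (x - 1) = 0 := by linear_combination -hE
  rcases mul_eq_zero.mp h with h | h
  · exact x_ne hx (pow_eq_zero_iff (two_ne_zero) |>.mp h)
  · exact x1_ne hx h

lemma xy_ne (hx : Transcendental k x) : x + y ≠ 0 := by
  intro h
  have hy : y = -x := by linear_combination h
  have h2 : x * (x - 1) ^ 2 = 0 := by rw [hy] at hE; linear_combination -hE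
  rcases mul_eq_zero.mp h2 with h | h
  · exact x_ne hx h
  · exact x1_ne hx (pow_eq_zero_iff (two_ne_zero) |>.mp h)

lemma ev_mul (p q p' q' : k[X]) :
    ev x y p q * ev x y p' q' =
      ev x y (p * p' + q * q' * (X ^ 2 * (X - 1))) (p * q' + q * p' - q * q') := by
  unfold ev
  simp only [map_add, map_mul, map_sub, map_pow, aeval_X, map_one]
  linear_combination (aeval x q * aeval x q') * hE

lemma ev_conj (p q : k[X]) : ev x y p q * ev x y (p - q) (-q) = aeval x (nm p q) := by
  unfold ev nm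
  simp only [map_mul, map_sub, map_pow, aeval_X, map_one, map_neg]
  linear_combination (- aeval x q ^ 2) * hE

lemma ev_ne (hx : Transcendental k x) {p q : k[X]} (h : nm p q ≠ 0) : ev x y p q ≠ 0 := by
  intro h0
  have := ev_conj hE p q
  rw [h0, zero_mul] at this
  exact aeval_ne hx h this.symm

omit hE

lemma isMon_mul {f g : F} (hx : x ≠ 0) (hx1 : x - 1 ≠ 0) (hy : y ≠ 0) (hxy : x + y ≠ 0)
    (hf : IsMon k x y f) (hg : IsMon k x y g) : IsMon k x y (f * g) := by
  obtain ⟨c, hc, a, b, d, e, rfl⟩ := hf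
  obtain ⟨c', hc', a', b', d', e', rfl⟩ := hg
  refine ⟨c * c', mul_ne_zero hc hc', a + a', b + b', d + d', e + e', ?_⟩
  rw [map_mul, zpow_add₀ hx, zpow_add₀ hx1, zpow_add₀ hy, zpow_add₀ hxy]
  ring

lemma isMon_inv {f : F} (hf : IsMon k x y f) : IsMon k x y f⁻¹ := by
  obtain ⟨c, hc, a, b, d, e, rfl⟩ := hf
  refine ⟨c⁻¹, inv_ne_zero hc, -a, -b, -d, -e, ?_⟩
  rw [map_inv₀, zpow_neg, zpow_neg, zpow_neg, zpow_neg]
  simp only [mul_inv]

lemma isMon_ne {f : F} (hx : x ≠ 0) (hx1 : x - 1 ≠ 0) (hy : y ≠ 0) (hxy : x + y ≠ 0)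
    (hf : IsMon k x y f) : f ≠ 0 := by
  obtain ⟨c, hc, a, b, d, e, rfl⟩ := hf
  have hc' : algebraMap k F c ≠ 0 := by
    rw [Ne, map_eq_zero]; exact hc
  exact mul_ne_zero (mul_ne_zero (mul_ne_zero (mul_ne_zero hc' (zpow_ne_zero _ hx))
    (zpow_ne_zero _ hx1)) (zpow_ne_zero _ hy)) (zpow_ne_zero _ hxy)

lemma isMon_C {c : k} (hc : c ≠ 0) : IsMon k x y (algebraMap k F c) :=
  ⟨c, hc, 0, 0, 0, 0, by simp⟩

lemma isMon_x : IsMon k x y x := ⟨1, one_ne_zero, 1, 0, 0, 0, by simp⟩

lemma isMon_x1 : IsMon k x y (x - 1) := ⟨1, one_ne_zero, 0, 1, 0, 0, by simp⟩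

lemma isMon_y : IsMon k x y y := ⟨1, one_ne_zero, 0, 0, 1, 0, by simp⟩

lemma isMon_xy : IsMon k x y (x + y) := ⟨1, one_ne_zero, 0, 0, 0, 1, by simp⟩

include hE in
lemma mon_aux (hx : Transcendental k x) : ∀ (n : ℕ) (i : ℕ), i ≤ n → ∀ (p q : k[X]) (c : k), c ≠ 0 →
    nm p q = C c * X ^ i → IsMon k x y (ev x y p q) := by
  have hx0 := x_ne hx
  have hx1 := x1_ne hx
  have hy := y_ne hE hx
  have hxy := xy_ne hE hx
  have mul : ∀ {f g : F}, IsMon k x y f → IsMon k x y g → IsMon k x y (f * g) :=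
    fun hf hg => isMon_mul hx0 hx1 hy hxy hf hg
  intro n
  induction n with
  | zero =>
    intro i hi p q c hc h
    obtain rfl : i = 0 := by omega
    obtain ⟨h1, h2⟩ := nm_deg p q
    have hd : (nm p q).natDegree = 0 := by rw [h]; simp
    rw [hd] at h1 h2
    have hq : q = 0 := by
      by_contra hq
      have := h2 hq
      omega
    have hp : p = C (p.coeff 0) := eq_C_of_natDegree_eq_zero (by omega)
    have hp0 : p.coeff 0 ≠ 0 := by
      intro h0
      rw [hq, hp, h0] at h
      unfold nm at h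
      simp at h
      exact hc (C_eq_zero.mp h.symm)
    rw [hq, hp]
    unfold ev
    rw [map_zero, zero_mul, add_zero, aeval_C]
    exact isMon_C hp0
  | succ n ih =>
    intro i hi p q c hc h
    rcases Nat.eq_zero_or_pos i with h0 | hpos
    · exact ih i (by omega) p q c hc h
    -- the case of a function vanishing at `(0,0)` only
    have key : ∀ (p q : k[X]), nm p q = C c * X ^ i → p.eval 0 = 0 → q.eval 0 ≠ 0 →
        IsMon k x y (ev x y p q) := by
      intro p q h hp hq
      rcases lt_or_ge i 5 with h5 | h5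
      · exact (small hc h5 h hp hq).elim
      obtain ⟨j, rfl⟩ := Nat.exists_eq_add_of_le' h5
      obtain ⟨P, Q, hP, hQ, hN⟩ := div5 h hp hq
      have h3 := ih j (by omega) P Q (-c) (neg_ne_zero.mpr hc) hN
      have hPx := congrArg (aeval x) hP
      have hQx := congrArg (aeval x) hQ
      simp only [map_add, map_mul, map_sub, map_pow, aeval_X, map_one, map_neg] at hPx hQx
      -- `f = - h f₁`, `h (x-1)² = y² (x+y)`
      have e1 : ev x y p q * (x - 1) ^ 2 * x ^ 5 =
          - (y ^ 2 * (x + y)) * ev x y P Q * x ^ 5 := by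
        have eh : (x ^ 2 + (x + 1) * y) * (x - 1) ^ 2 = y ^ 2 * (x + y) := by
          linear_combination (1 - x - y) * hE
        have eh2 : (x ^ 2 + (x + 1) * y) * (x ^ 2 - x - 1 - (x + 1) * y) = - x ^ 5 := by
          linear_combination (-(x + 1) ^ 2) * hE
        have e2 : ev x y p q * (x ^ 2 - x - 1 - (x + 1) * y) = x ^ 5 * ev x y P Q := by
          unfold ev
          linear_combination -hPx - y * hQx - ((aeval x q) * (x + 1)) * hE
        rw [← eh]
        linear_combination (-(x ^ 2 + (x + 1) * y) * (x - 1) ^ 2) * e2 +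
          (ev x y p q * (x - 1) ^ 2) * eh2
      have hx5 : x ^ 5 ≠ 0 := pow_ne_zero _ hx0
      have e2 : ev x y p q = algebraMap k F (-1) * (y * y * (x + y)) * ((x - 1)⁻¹ * (x - 1)⁻¹) *
          ev x y P Q := by
        have e3 := mul_right_cancel₀ hx5 e1
        rw [map_neg, map_one]
        field_simp
        linear_combination e3
      rw [e2]
      refine mul (mul (mul (isMon_C (neg_ne_zero.mpr one_ne_zero)) (mul (mul isMon_y isMon_y) isMon_xy))
        (mul (isMon_inv isMon_x1) (isMon_inv isMon_x1))) h3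
    have hev : (nm p q).eval 0 = 0 := by
      rw [h]; simp [hpos.ne']
    have hev2 : p.eval 0 * (p.eval 0 - q.eval 0) = 0 := by
      have : (nm p q).eval 0 = p.eval 0 * (p.eval 0 - q.eval 0) := by
        unfold nm; simp; ring
      rw [← this]; exact hev
    rcases eq_or_ne (p.eval 0) 0 with hp | hp
    · rcases eq_or_ne (q.eval 0) 0 with hq | hq
      · obtain ⟨p1, rfl⟩ := (dvd_X p).mpr hp
        obtain ⟨q1, rfl⟩ := (dvd_X q).mpr hq
        have e1 : X ^ 2 * nm p1 q1 = C c * X ^ i := by rw [← h]; unfold nm; ring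
        have hi2 : 2 ≤ i := by
          by_contra hi2
          have : i = 1 := by omega
          subst this
          have h2 : X * (X * nm p1 q1) = X * C c := by rw [pow_one] at e1; linear_combination e1
          have h3 := mul_left_cancel₀ X_ne_zero h2
          have h4 := congrArg (eval 0) h3
          simp at h4
          exact hc h4.symm
        obtain ⟨j, rfl⟩ := Nat.exists_eq_add_of_le' hi2
        have h2 : nm p1 q1 = C c * X ^ j := by
          apply mul_left_cancel₀ (pow_ne_zero 2 (X_ne_zero (R := k)))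
          rw [e1]; ring
        have h3 := ih j (by omega) p1 q1 c hc h2
        have e3 : ev x y (X * p1) (X * q1) = x * ev x y p1 q1 := by
          unfold ev
          simp only [map_mul, aeval_X]
          ring
        rw [e3]
        exact mul isMon_x h3
      · exact key p q h hp hq
    · have hpq : p.eval 0 - q.eval 0 = 0 := (mul_eq_zero.mp hev2).resolve_left hp
      have hq : (-q).eval 0 ≠ 0 := by
        rw [eval_neg, neg_ne_zero]
        rw [sub_eq_zero] at hpq
        rw [← hpq]; exact hp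
      have h2 : nm (p - q) (-q) = C c * X ^ i := by rw [nm_conj]; exact h
      have h3 := key (p - q) (-q) h2 (by rw [eval_sub]; exact hpq) hq
      have h4 := ev_conj hE p q
      have h5 : ev x y p q = aeval x (nm p q) * (ev x y (p - q) (-q))⁻¹ := by
        rw [← h4, mul_assoc, mul_inv_cancel₀ (isMon_ne hx0 hx1 hy hxy h3), mul_one]
      rw [h5, h]
      refine mul ?_ (isMon_inv h3)
      rw [map_mul, aeval_C, map_pow, aeval_X]
      refine mul (isMon_C hc) ⟨1, one_ne_zero, i, 0, 0, 0, by simp⟩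

include hE in
/-- a function whose norm is `c x^i (x-1)^j` -/
lemma mon_of_norm (hx : Transcendental k x) : ∀ (j i : ℕ) (p q : k[X]) (c : k), c ≠ 0 →
    nm p q = C c * X ^ i * (X - 1) ^ j → IsMon k x y (ev x y p q) := by
  have hx0 := x_ne hx
  have hx1 := x1_ne hx
  have hy := y_ne hE hx
  have hxy := xy_ne hE hx
  have mul : ∀ {f g : F}, IsMon k x y f → IsMon k x y g → IsMon k x y (f * g) :=
    fun hf hg => isMon_mul hx0 hx1 hy hxy hf hg
  intro j
  induction j with
  | zero =>
    intro i p q c hc h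
    exact mon_aux hE hx i i le_rfl p q c hc (by rw [h]; ring)
  | succ j ih =>
    intro i p q c hc h
    have hev : (nm p q).eval 1 = 0 := by
      rw [h]; simp
    have hev2 : p.eval 1 * (p.eval 1 - q.eval 1) = 0 := by
      have : (nm p q).eval 1 = p.eval 1 * (p.eval 1 - q.eval 1) := by
        unfold nm; simp; ring
      rw [← this]; exact hev
    rcases mul_eq_zero.mp hev2 with hp | hp
    · -- vanishing at `(1,0)`
      obtain ⟨p1, rfl⟩ := (dvd_X1 p).mpr hp
      have e1 : nm (X ^ 2 * (p1 + q)) (p1 + q * (X + 1)) = C c * X ^ (i + 3) * (X - 1) ^ j := by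
        apply mul_left_cancel₀ (X1_ne (k := k))
        have : (X - 1) * nm (X ^ 2 * (p1 + q)) (p1 + q * (X + 1)) = X ^ 3 * nm ((X - 1) * p1) q := by
          unfold nm; ring
        rw [this, h]; ring
      have h3 := ih (i + 3) _ _ c hc e1
      have e2 : ev x y ((X - 1) * p1) q * (x ^ 2 + y) =
          (x - 1) * ev x y (X ^ 2 * (p1 + q)) (p1 + q * (X + 1)) := by
        unfold ev
        simp only [map_add, map_mul, map_sub, map_pow, aeval_X, map_one]
        linear_combination (aeval x q) * hE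
      have e3 : (x ^ 2 + y) * (x - 1) = y * (x + y) := by linear_combination -hE
      have hne : x ^ 2 + y ≠ 0 := by
        intro h0
        rw [h0, zero_mul] at e3
        exact (mul_ne_zero hy hxy) e3.symm
      have e4 : ev x y ((X - 1) * p1) q = (x - 1) * (x - 1) * (y⁻¹ * (x + y)⁻¹) *
          ev x y (X ^ 2 * (p1 + q)) (p1 + q * (X + 1)) := by
        apply mul_right_cancel₀ hne
        rw [e2]
        have e5 : x ^ 2 + y = y * (x + y) * (x - 1)⁻¹ := by
          rw [← e3]; field_simp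
        rw [e5]
        field_simp
      rw [e4]
      exact mul (mul (mul isMon_x1 isMon_x1) (mul (isMon_inv isMon_y) (isMon_inv isMon_xy))) h3
    · -- vanishing at `(1,-1)`
      have hp' : (p - q).eval 1 = 0 := by rw [eval_sub]; exact hp
      obtain ⟨p1, hp1⟩ := (dvd_X1 (p - q)).mpr hp'
      have hp2 : p = q + (X - 1) * p1 := by rw [← hp1]; ring
      subst hp2
      have e1 : nm (q * X ^ 2) p1 = C (-c) * X ^ (i + 2) * (X - 1) ^ j := by
        apply mul_left_cancel₀ (X1_ne (k := k))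
        have : (X - 1) * nm (q * X ^ 2) p1 = - X ^ 2 * nm (q + (X - 1) * p1) q := by
          unfold nm; ring
        rw [this, h, map_neg]; ring
      have h3 := ih (i + 2) _ _ (-c) (neg_ne_zero.mpr hc) e1
      have e2 : ev x y (q + (X - 1) * p1) q * y = (x - 1) * ev x y (q * X ^ 2) p1 := by
        unfold ev
        simp only [map_add, map_mul, map_sub, map_pow, aeval_X, map_one]
        linear_combination (aeval x q) * hE
      have e4 : ev x y (q + (X - 1) * p1) q = (x - 1) * y⁻¹ * ev x y (q * X ^ 2) p1 := by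
        apply mul_right_cancel₀ hy
        rw [e2]
        field_simp
      rw [e4]
      exact mul (mul isMon_x1 (isMon_inv isMon_y)) h3

include hE in
/-- elements of the ring -/
lemma mem_RR (hx : Transcendental k x) {f : F} (hf : f ∈ RR k x y) :
    ∃ (n : ℕ) (p q : k[X]), f * (x * (x - 1)) ^ n = ev x y p q := by
  have hx0 := x_ne hx
  have hx1 := x1_ne hx
  have hD : x * (x - 1) ≠ 0 := mul_ne_zero hx0 hx1
  unfold RR at hf
  induction hf using Algebra.adjoin_induction with
  | mem u hu =>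
    rcases hu with rfl | rfl | rfl
    · exact ⟨0, X, 0, by unfold ev; simp⟩
    · exact ⟨0, 0, 1, by unfold ev; simp⟩
    · exact ⟨1, 1, 0, by unfold ev; rw [pow_one, inv_mul_cancel₀ hD]; simp⟩
  | algebraMap r => exact ⟨0, C r, 0, by unfold ev; simp⟩
  | add u v _ _ hu hv =>
    obtain ⟨n, p, q, h⟩ := hu
    obtain ⟨m, p', q', h'⟩ := hv
    refine ⟨n + m, p * (X * (X - 1)) ^ m + p' * (X * (X - 1)) ^ n,
      q * (X * (X - 1)) ^ m + q' * (X * (X - 1)) ^ n, ?_⟩
    have e : (u + v) * (x * (x - 1)) ^ (n + m) =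
        (u * (x * (x - 1)) ^ n) * (x * (x - 1)) ^ m +
          (v * (x * (x - 1)) ^ m) * (x * (x - 1)) ^ n := by
      rw [pow_add]; ring
    rw [e, h, h']
    unfold ev
    simp only [map_add, map_mul, map_sub, map_pow, aeval_X, map_one]
    ring
  | mul u v _ _ hu hv =>
    obtain ⟨n, p, q, h⟩ := hu
    obtain ⟨m, p', q', h'⟩ := hv
    refine ⟨n + m, p * p' + q * q' * (X ^ 2 * (X - 1)), p * q' + q * p' - q * q', ?_⟩
    rw [← ev_mul hE, ← h, ← h', pow_add]
    ring

lemma dvd_XX {a : k[X]} {M : ℕ} (h : a ∣ (X * (X - 1)) ^ M) :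
    ∃ (c : k) (i j : ℕ), c ≠ 0 ∧ a = C c * X ^ i * (X - 1) ^ j := by
  rw [mul_pow] at h
  obtain ⟨a1, a2, h1, h2, rfl⟩ := exists_dvd_and_dvd_of_dvd_mul h
  obtain ⟨i, -, u, hu⟩ := (dvd_prime_pow prime_X M).mp h1
  obtain ⟨j, -, v, hv⟩ := (dvd_prime_pow prime_X1 M).mp h2
  obtain ⟨c, hc, hc'⟩ := Polynomial.isUnit_iff.mp (u⁻¹).isUnit
  obtain ⟨d, hd, hd'⟩ := Polynomial.isUnit_iff.mp (v⁻¹).isUnit
  refine ⟨c * d, i, j, mul_ne_zero hc.ne_zero hd.ne_zero, ?_⟩
  have e1 : a1 = C c * X ^ i := by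
    rw [hc', ← hu, mul_comm a1, ← mul_assoc, Units.inv_mul, one_mul]
  have e2 : a2 = C d * (X - 1) ^ j := by
    rw [hd', ← hv, mul_comm a2, ← mul_assoc, Units.inv_mul, one_mul]
  rw [e1, e2, map_mul]
  ring

include hE in
lemma ev_eq_zero (hx : Transcendental k x) {p q : k[X]} (h : ev x y p q = 0) : p = 0 ∧ q = 0 := by
  have h1 : nm p q = 0 := by
    by_contra hne
    exact ev_ne hE hx hne h
  have h2 := (nm_deg p q).2
  rw [h1] at h2
  have hq : q = 0 := by
    by_contra hq
    have := h2 hq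
    simp at this
  rw [hq] at h1
  unfold nm at h1
  have hp : p = 0 := by
    have : p ^ 2 = 0 := by linear_combination h1
    exact pow_eq_zero_iff (two_ne_zero) |>.mp this
  exact ⟨hp, hq⟩

lemma zpow_mem {S : Subalgebra k F} {u : F} (h : u ∈ S) (h' : u⁻¹ ∈ S) (a : ℤ) : u ^ a ∈ S := by
  obtain ⟨n, rfl | rfl⟩ := Int.eq_nat_or_neg a
  · rw [zpow_natCast]; exact pow_mem h n
  · rw [zpow_neg, zpow_natCast, ← inv_pow]; exact pow_mem h' n

include hE in
lemma mon_mem (hx : Transcendental k x) {f : F} (hf : IsMon k x y f) : f ∈ RR k x y := by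
  have hx0 := x_ne hx
  have hx1 := x1_ne hx
  have hy := y_ne hE hx
  have hxy := xy_ne hE hx
  have mx : x ∈ RR k x y := Algebra.subset_adjoin (by simp)
  have my : y ∈ RR k x y := Algebra.subset_adjoin (by simp)
  have mi : (x * (x - 1))⁻¹ ∈ RR k x y := Algebra.subset_adjoin (by simp)
  have mx1 : x - 1 ∈ RR k x y := sub_mem mx (one_mem _)
  have mxy : x + y ∈ RR k x y := add_mem mx my
  have ix : x⁻¹ ∈ RR k x y := by
    have : x⁻¹ = (x - 1) * (x * (x - 1))⁻¹ := by field_simp
    rw [this]; exact mul_mem mx1 mi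
  have ix1 : (x - 1)⁻¹ ∈ RR k x y := by
    have : (x - 1)⁻¹ = x * (x * (x - 1))⁻¹ := by field_simp
    rw [this]; exact mul_mem mx mi
  have iy : y⁻¹ ∈ RR k x y := by
    have : y⁻¹ = (y + 1) * (x⁻¹ * (x * (x - 1))⁻¹) := by
      field_simp
      linear_combination -hE
    rw [this]; exact mul_mem (add_mem my (one_mem _)) (mul_mem ix mi)
  have ixy : (x + y)⁻¹ ∈ RR k x y := by
    have : (x + y)⁻¹ = - (x - 1 - y) * ((x - 1)⁻¹ * (x * (x - 1))⁻¹) := by
      field_simp
      linear_combination -hE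
    rw [this]
    exact mul_mem (neg_mem (sub_mem mx1 my)) (mul_mem ix1 mi)
  obtain ⟨c, hc, a, b, d, e, rfl⟩ := hf
  exact mul_mem (mul_mem (mul_mem (mul_mem (Subalgebra.algebraMap_mem _ c) (zpow_mem mx ix a))
    (zpow_mem mx1 ix1 b)) (zpow_mem my iy d)) (zpow_mem mxy ixy e)

include hE in
/-- **The units** of the ring of functions which are regular outside of the five cusps. -/
theorem units_iff (hx : Transcendental k x) (f : F) :
    (f ≠ 0 ∧ f ∈ RR k x y ∧ f⁻¹ ∈ RR k x y) ↔ IsMon k x y f := by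
  have hx0 := x_ne hx
  have hx1 := x1_ne hx
  have hy := y_ne hE hx
  have hxy := xy_ne hE hx
  have hD : x * (x - 1) ≠ 0 := mul_ne_zero hx0 hx1
  constructor
  · rintro ⟨hf0, hf, hf'⟩
    obtain ⟨n, p, q, h⟩ := mem_RR hE hx hf
    obtain ⟨m, p', q', h'⟩ := mem_RR hE hx hf'
    have e1 : ev x y p q * ev x y p' q' = (x * (x - 1)) ^ (n + m) := by
      rw [← h, ← h', pow_add]
      field_simp
    rw [ev_mul hE] at e1
    set P := p * p' + q * q' * (X ^ 2 * (X - 1)) with hP
    set Q := p * q' + q * p' - q * q' with hQ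
    have e2 : ev x y (P - (X * (X - 1)) ^ (n + m)) Q = 0 := by
      have : ev x y (P - (X * (X - 1)) ^ (n + m)) Q = ev x y P Q - (x * (x - 1)) ^ (n + m) := by
        unfold ev
        simp only [map_mul, map_sub, map_pow, aeval_X, map_one]
        ring
      rw [this, e1, sub_self]
    obtain ⟨e3, e4⟩ := ev_eq_zero hE hx e2
    have e5 : nm p q * nm p' q' = (X * (X - 1)) ^ ((n + m) + (n + m)) := by
      rw [nm_mul, ← hP, ← hQ, e4, sub_eq_zero.mp e3]
      unfold nm
      ring
    obtain ⟨c, i, j, hc, hN⟩ := dvd_XX (Dvd.intro _ e5)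
    have h3 := mon_of_norm hE hx j i p q c hc hN
    have h4 : f = ev x y p q * ((x * (x - 1)) ^ n)⁻¹ := by
      rw [← h]
      field_simp
    rw [h4]
    have mul : ∀ {f g : F}, IsMon k x y f → IsMon k x y g → IsMon k x y (f * g) :=
      fun hf hg => isMon_mul hx0 hx1 hy hxy hf hg
    refine mul h3 (isMon_inv ⟨1, one_ne_zero, n, n, 0, 0, ?_⟩)
    rw [mul_pow]; simp
  · intro hf
    exact ⟨isMon_ne hx0 hx1 hy hxy hf, mon_mem hE hx hf, mon_mem hE hx (isMon_inv hf)⟩

end Field

end Pool.Agent.K4C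

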